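import Pool.Agent.Helper95.GC.EChk
import Pool.Agent.Helper16.EX.Brg

/-!
The exact cross bound for two colours, from the certificate.
-/

namespace Pool.Agent.Helper95.GC

open Finset
open Pool.Agent.Helper16.EX
open Pool.Agent.Helper64.CX (Cfg Cross Bound Pr_enc)

section Hoff

/-- Hoffman bound with kernels which may depend on the cut -/
theorem hoff_gen {E : Type} [Fintype E] [DecidableEq E] {S : Type} [Fintype S] [Nonempty S]
    (N : S → E → Bool) (φ : S → (E → Bool) → ℝ)
    (h0 : ∀ s, φ s (fun _ => false) = 7)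
    (h1 : ∀ R : E → Bool, R ≠ (fun _ => false) →
      |∑ s, φ s (fun e => R e && N s e)| ≤ Fintype.card S)
    (F G : Finset (E → Bool))
    (hFG : ∀ A ∈ F, ∀ B ∈ G, ∀ s, ∃ e, N s e = false ∧ A e ≠ B e) :
    49 * ((F.card : ℝ) * G.card) ≤
      ((2 : ℝ) ^ Fintype.card E - F.card) * ((2 : ℝ) ^ Fintype.card E - G.card) := by
  classical
  set M : ℝ := (2 : ℝ) ^ Fintype.card E with hM
  have hMpos : 0 < M := by positivity
  set c : ℝ := (Fintype.card S : ℝ) with hc
  have hcpos : 0 < c := by
    rw [hc]; exact_mod_cast Fintype.card_pos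
  have hrel : ∑ R : E → Bool, (∑ s, φ s (fun e => R e && N s e)) * (hat F R * hat G R) = 0 := by
    simp_rw [Finset.sum_mul]
    rw [Finset.sum_comm]
    exact Finset.sum_eq_zero (fun s _ => relation (N s) (φ s) F G (fun A hA B hB => hFG A hA B hB s))
  set z : E → Bool := fun _ => false with hz
  have hsplit := Finset.add_sum_erase univ
    (fun R : E → Bool => (∑ s, φ s (fun e => R e && N s e)) * (hat F R * hat G R)) (mem_univ z)
  rw [hrel] at hsplit
  have hz0 : (∑ s, φ s (fun e => z e && N s e)) = 7 * c := by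
    have : ∀ s, φ s (fun e => z e && N s e) = 7 := by
      intro s; rw [← h0 s]; congr 1
    simp [this, hc, mul_comm]
  simp only [hz0] at hsplit
  rw [hz, hat_zero, hat_zero, ← hz] at hsplit
  set a : ℝ := (F.card : ℝ) with ha
  set b : ℝ := (G.card : ℝ) with hb
  have ha0 : 0 ≤ a := by positivity
  have hb0 : 0 ≤ b := by positivity
  have haM : a ≤ M := by
    have : (F.card : ℝ) ≤ (Fintype.card (E → Bool) : ℝ) := by
      exact_mod_cast Finset.card_le_univ F
    simpa [hM] using this
  have hbM : b ≤ M := by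
    have : (G.card : ℝ) ≤ (Fintype.card (E → Bool) : ℝ) := by
      exact_mod_cast Finset.card_le_univ G
    simpa [hM] using this
  have hbound : 7 * c * (a * b) ≤ c * ∑ R ∈ univ.erase z, |hat F R| * |hat G R| := by
    have h2 : 7 * c * (a * b) = - ∑ R ∈ univ.erase z,
        (∑ s, φ s (fun e => R e && N s e)) * (hat F R * hat G R) := by linarith
    rw [h2, ← Finset.sum_neg_distrib, Finset.mul_sum]
    refine Finset.sum_le_sum (fun R hR => ?_)
    have h3 := h1 R (Finset.mem_erase.1 hR).1
    calc -((∑ s, φ s (fun e => R e && N s e)) * (hat F R * hat G R))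
        ≤ |(∑ s, φ s (fun e => R e && N s e)) * (hat F R * hat G R)| := neg_le_abs _
      _ = |∑ s, φ s (fun e => R e && N s e)| * (|hat F R| * |hat G R|) := by
          rw [abs_mul, abs_mul]
      _ ≤ c * (|hat F R| * |hat G R|) := by
          apply mul_le_mul_of_nonneg_right h3; positivity
  have hbound2 : 7 * (a * b) ≤ ∑ R ∈ univ.erase z, |hat F R| * |hat G R| := by
    have : c * (7 * (a * b)) ≤ c * ∑ R ∈ univ.erase z, |hat F R| * |hat G R| := by
      linarith
    exact le_of_mul_le_mul_left this hcpos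
  have hpa : ∑ R ∈ univ.erase z, |hat F R| ^ 2 = M * a - a ^ 2 := by
    have h4 := Finset.add_sum_erase univ (fun R : E → Bool => hat F R ^ 2) (mem_univ z)
    rw [parseval] at h4
    beta_reduce at h4
    rw [hz, hat_zero, ← hz] at h4
    simp_rw [sq_abs]
    linarith
  have hpb : ∑ R ∈ univ.erase z, |hat G R| ^ 2 = M * b - b ^ 2 := by
    have h4 := Finset.add_sum_erase univ (fun R : E → Bool => hat G R ^ 2) (mem_univ z)
    rw [parseval] at h4
    beta_reduce at h4
    rw [hz, hat_zero, ← hz] at h4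
    simp_rw [sq_abs]
    linarith
  have hcs := Finset.sum_mul_sq_le_sq_mul_sq (univ.erase z) (fun R : E → Bool => |hat F R|)
    (fun R : E → Bool => |hat G R|)
  rw [hpa, hpb] at hcs
  have hsq : (7 * (a * b)) ^ 2 ≤ (M * a - a ^ 2) * (M * b - b ^ 2) :=
    le_trans (pow_le_pow_left₀ (by positivity) hbound2 2) hcs
  by_cases hab : a * b = 0
  · rw [hab, mul_zero]
    exact mul_nonneg (by linarith) (by linarith)
  have habpos : 0 < a * b := lt_of_le_of_ne (mul_nonneg ha0 hb0) (Ne.symm hab)
  have : (a * b) * (49 * (a * b)) ≤ (a * b) * ((M - a) * (M - b)) := by nlinarith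
  exact le_of_mul_le_mul_left this habpos

end Hoff

section Adj
variable {n : ℕ}

/-- symmetric adjacency of an edge function -/
def adjS (R : Edg n → Bool) : Fin n → Fin n → Bool :=
  fun i j => if h : i < j then R ⟨(i, j), h⟩ else if h : j < i then R ⟨(j, i), h⟩ else false

theorem adjS_isG (R : Edg n → Bool) : IsG (adjS R) := by
  constructor
  · intro u v
    unfold adjS
    rcases lt_trichotomy u v with h | h | h
    · rw [dif_pos h, dif_neg (not_lt.2 h.le), dif_pos h]
    · subst h; rfl
    · rw [dif_neg (not_lt.2 h.le), dif_pos h, dif_pos h]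
  · intro v
    unfold adjS
    rw [dif_neg (lt_irrefl v), dif_neg (lt_irrefl v)]

theorem adjS_cut (R : Edg n → Bool) (s : Fin n → Bool) (u v : Fin n) (h : s u ≠ s v) :
    adjS (fun e => R e && cutB s e) v u = adjS R v u := by
  unfold adjS cutB
  have hx : xor (s v) (s u) = true := by
    cases hu : s u <;> cases hv : s v <;> simp_all
  have hx' : xor (s u) (s v) = true := by
    cases hu : s u <;> cases hv : s v <;> simp_all
  rcases lt_trichotomy v u with h1 | h1 | h1
  · rw [dif_pos h1, dif_pos h1]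
    simp only [hx, Bool.and_true]
  · subst h1; exact absurd rfl h
  · rw [dif_neg (not_lt.2 h1.le), dif_pos h1, dif_neg (not_lt.2 h1.le), dif_pos h1]
    simp only [hx', Bool.and_true]

theorem st_cut (R : Edg n → Bool) (s : Fin n → Bool) :
    st (adjS (fun e => R e && cutB s e)) s = st (adjS R) s := by
  have h1 : ∀ v, dg (adjS (fun e => R e && cutB s e)) s v = dg (adjS R) s v := by
    intro v
    unfold dg
    apply sum_congr rfl
    intro u _
    by_cases h : s u ≠ s v
    · rw [adjS_cut R s u v h]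
    · simp [h]
  unfold st sd
  simp only [h1]

theorem adjS_ne (R : Edg n → Bool) (h : R ≠ fun _ => false) : ∃ u v, adjS R u v = true := by
  by_contra hno
  push Not at hno
  apply h
  funext e
  obtain ⟨⟨i, j⟩, hij⟩ := e
  have := hno i j
  unfold adjS at this
  rw [dif_pos hij] at this
  simpa using this

theorem st_zero (s : Fin n → Bool) : st (adjS (fun _ => false)) s = (0, 0, 0) := by
  have h1 : ∀ v, dg (adjS (fun _ => false)) s v = 0 := by
    intro v
    unfold dg adjS
    apply sum_eq_zero
    intro u _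
    simp
  unfold st sd
  simp [h1, c2]

end Adj

/-- the kernel of the certificate -/
noncomputable def kerE (n : ℕ) (s : Fin n → Bool) (H : Edg n → Bool) : ℝ :=
  ((ex E.par.K E.par.phi (st (adjS H) s) : ℤ) : ℝ) / 80

theorem kerE_zero (n : ℕ) (s : Fin n → Bool) : kerE n s (fun _ => false) = 7 := by
  unfold kerE
  rw [st_zero]
  have : ex E.par.K E.par.phi (0, 0, 0) = 560 := by decide +kernel
  rw [this]; norm_num

theorem kerE_bound (n : ℕ) (R : Edg n → Bool) (hR : R ≠ fun _ => false) :
    |∑ s : Fin n → Bool, kerE n s (fun e => R e && cutB s e)| ≤ Fintype.card (Fin n → Bool) := by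
  have h := bound_all E.par_ok E.cT ⟨0, _, rfl⟩ n (Fin n) (Fintype.card_fin n) (adjS R) (adjS_isG R)
    (adjS_ne R hR)
  have hh : ∀ m, E.par.hi m = 80 := by intro m; simp [Par.hi, E.par]
  rw [hh] at h
  have e1 : ∑ s : Fin n → Bool, kerE n s (fun e => R e && cutB s e) =
      ((SS (adjS R) (ex E.par.K E.par.phi) : ℤ) : ℝ) / 80 := by
    unfold kerE SS
    rw [Int.cast_sum, sum_div]
    apply sum_congr rfl
    intro s _
    rw [st_cut]
  rw [e1]
  have hc : ((Fintype.card (Fin n → Bool) : ℕ) : ℝ) = 2 ^ n := by simp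
  rw [hc]
  obtain ⟨h1, h2⟩ := h
  have h1' : ((SS (adjS R) (ex E.par.K E.par.phi) : ℤ) : ℝ) ≤ 80 * 2 ^ n := by exact_mod_cast h1
  have h2' : - ((SS (adjS R) (ex E.par.K E.par.phi) : ℤ) : ℝ) ≤ 80 * 2 ^ n := by exact_mod_cast h2
  rw [abs_le]
  constructor
  · rw [le_div_iff₀ (by norm_num)]; linarith
  · rw [div_le_iff₀ (by norm_num)]; linarith

/-- **Hoffman form of the cross bound for two colours.** -/
theorem hoff_two (n : ℕ) (F G : Finset (Cfg n)) (hFG : Cross 2 n F G) :
    49 * ((F.card : ℝ) * G.card) ≤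
      ((2 : ℝ) ^ (n.choose 2) - F.card) * ((2 : ℝ) ^ (n.choose 2) - G.card) := by
  classical
  set F' : Finset (Edg n → Bool) := univ.filter (fun a => cfg a ∈ F) with hF'
  set G' : Finset (Edg n → Bool) := univ.filter (fun a => cfg a ∈ G) with hG'
  have hcard : ∀ H : Finset (Cfg n), (univ.filter (fun a : Edg n → Bool => cfg a ∈ H)).card = H.card := by
    intro H
    refine Finset.card_bij (fun a _ => cfg a) ?_ ?_ ?_
    · intro a ha; exact (Finset.mem_filter.1 ha).2
    · intro a _ b _ h; exact cfg_inj h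
    · intro B hB
      obtain ⟨a, ha⟩ := cfg_bij.2 B
      exact ⟨a, by simp [ha, hB], ha⟩
  have hcr : ∀ A ∈ F', ∀ B ∈ G', ∀ s : Fin n → Bool, ∃ e, cutB s e = false ∧ A e ≠ B e := by
    intro A hA B hB s
    by_contra hne
    push Not at hne
    refine hFG (cfg A) (Finset.mem_filter.1 hA).2 (cfg B) (Finset.mem_filter.1 hB).2 ?_
    refine ⟨fun i => if s i then 1 else 0, ?_⟩
    rw [cfg, cfg, Pr_enc]
    intro i j hij hab hc
    have h2 : A ⟨(i, j), hij⟩ ≠ B ⟨(i, j), hij⟩ := by
      simpa [adj, hij] using hab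
    apply h2
    apply hne
    unfold cutB
    revert hc
    simp only []
    cases hsi : s i <;> cases hsj : s j <;> simp
  have h := hoff_gen (E := Edg n) (S := Fin n → Bool) (fun s e => cutB s e) (kerE n) (kerE_zero n)
    (kerE_bound n) F' G' hcr
  rw [hF', hG', hcard F, hcard G, card_edg] at h
  exact h

/-- **The exact cross bound for two colours.** -/
theorem bound_two (n : ℕ) : Bound 2 n (1 / 64) := by
  intro F G h
  have h1 := hoff_two n F G h
  set M : ℝ := (2 : ℝ) ^ (n.choose 2) with hM
  set f : ℝ := (F.card : ℝ) with hf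
  set g : ℝ := (G.card : ℝ) with hg
  have hM0 : 0 < M := by positivity
  have hf0 : 0 ≤ f := Nat.cast_nonneg _
  have hg0 : 0 ≤ g := Nat.cast_nonneg _
  by_contra hcon
  push Not at hcon
  have h2 : M ^ 2 < 64 * (f * g) := by linarith
  have h3 : M < 4 * (f + g) := by
    by_contra h4
    push Not at h4
    have h5 : (4 * (f + g)) ^ 2 ≤ M ^ 2 := by
      apply pow_le_pow_left₀ (by positivity) h4
    nlinarith [sq_nonneg (f - g)]
  nlinarith

end Pool.Agent.Helper95.GC
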