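import Mathlib

/-!
Cut statistics of a finite graph and the one vertex extension step.
-/

namespace Pool.Agent.Helper95.GC

open Finset

section Defs
variable {V : Type} [Fintype V]

/-- degree of `v` in the cut graph of the bipartition `s` -/
def dg (A : V → V → Bool) (s : V → Bool) (v : V) : ℕ :=
  ∑ u, if A v u = true ∧ s u ≠ s v then 1 else 0

/-- sum of `w (cut degree)` over the side `b` -/
def sd (w : ℕ → ℕ) (A : V → V → Bool) (s : V → Bool) (b : Bool) : ℕ :=
  ∑ v, if s v = b then w (dg A s v) else 0

def c2 (d : ℕ) : ℕ := d * (d - 1) / 2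

/-- the state of a bipartition: number of cut edges, and the sums of `C(deg,2)` on both sides -/
def st (A : V → V → Bool) (s : V → Bool) : ℕ × ℕ × ℕ :=
  (sd id A s false, sd c2 A s false, sd c2 A s true)

/-- add a new vertex `none` with neighbour set `N` -/
def addV (A : V → V → Bool) (N : V → Bool) : Option V → Option V → Bool
  | none, none => false
  | none, some v => N v
  | some v, none => N v
  | some u, some v => A u v

structure IsG (A : V → V → Bool) : Prop where
  symm : ∀ u v, A u v = A v u
  irr : ∀ v, A v v = false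

def deg (A : V → V → Bool) (v : V) : ℕ := ∑ u, if A v u = true then 1 else 0

end Defs

section Sum
variable {V : Type} [Fintype V] [DecidableEq V]

def SS (A : V → V → Bool) (F : ℕ × ℕ × ℕ → ℤ) : ℤ := ∑ s : V → Bool, F (st A s)

end Sum

theorem c2_succ (d : ℕ) : c2 (d + 1) = c2 d + d := by
  unfold c2; exact Nat.triangle_succ d

theorem c2_add (a b : ℕ) : c2 (a + b) = c2 a + c2 b + a * b := by
  induction b with
  | zero => simp [c2]
  | succ b ih => rw [← add_assoc, c2_succ, ih, c2_succ]; ring

theorem c2_sum_le {ι : Type} (S : Finset ι) (f : ι → ℕ) :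
    ∑ i ∈ S, c2 (f i) ≤ c2 (∑ i ∈ S, f i) := by
  classical
  induction S using Finset.induction_on with
  | empty => simp [c2]
  | insert a S ha ih =>
    rw [sum_insert ha, sum_insert ha, c2_add]
    nlinarith [ih, Nat.zero_le (f a * ∑ i ∈ S, f i)]

section Ext
variable {V : Type} [Fintype V]

/-- extend a bipartition to the new vertex -/
def ext (b : Bool) (s : V → Bool) : Option V → Bool := fun o => o.elim b s

@[simp] theorem ext_none (b : Bool) (s : V → Bool) : ext b s none = b := rfl
@[simp] theorem ext_some (b : Bool) (s : V → Bool) (v : V) : ext b s (some v) = s v := rfl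

/-- neighbours of the new vertex on the other side -/
def PS (N : V → Bool) (s : V → Bool) (b : Bool) : Finset V :=
  univ.filter (fun v => N v = true ∧ s v ≠ b)

theorem dg_some (A : V → V → Bool) (N : V → Bool) (b : Bool) (s : V → Bool) (v : V) :
    dg (addV A N) (ext b s) (some v) = dg A s v + (if N v = true ∧ b ≠ s v then 1 else 0) := by
  unfold dg
  rw [Fintype.sum_option, add_comm]
  rfl

theorem dg_none (A : V → V → Bool) (N : V → Bool) (b : Bool) (s : V → Bool) :
    dg (addV A N) (ext b s) none = (PS N s b).card := by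
  unfold dg PS
  rw [Fintype.sum_option, card_filter]
  have h0 : (if addV A N none none = true ∧ ext b s none ≠ ext b s none then 1 else 0) = 0 := by
    simp
  rw [h0, zero_add]
  rfl

theorem sd_same (w : ℕ → ℕ) (A : V → V → Bool) (N : V → Bool) (b : Bool) (s : V → Bool) :
    sd w (addV A N) (ext b s) b = w (PS N s b).card + sd w A s b := by
  unfold sd
  rw [Fintype.sum_option]
  simp only [ext_none, ext_some, if_true, dg_none]
  congr 1
  apply sum_congr rfl
  intro v _
  by_cases h : s v = b
  · simp [h, dg_some]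
  · simp [h]

theorem sd_other_id (A : V → V → Bool) (N : V → Bool) (b : Bool) (s : V → Bool) :
    sd id (addV A N) (ext b s) (!b) = sd id A s (!b) + (PS N s b).card := by
  unfold sd PS
  rw [Fintype.sum_option, card_filter, ← sum_add_distrib]
  have h0 : (if ext b s none = !b then id (dg (addV A N) (ext b s) none) else 0) = 0 := by
    cases b <;> simp
  rw [h0, zero_add]
  apply sum_congr rfl
  intro v _
  simp only [ext_some, dg_some, id]
  cases b <;> cases hs : s v <;> simp

theorem sd_other_c2 (A : V → V → Bool) (N : V → Bool) (b : Bool) (s : V → Bool) :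
    sd c2 (addV A N) (ext b s) (!b) = sd c2 A s (!b) + ∑ v ∈ PS N s b, dg A s v := by
  unfold sd PS
  rw [Fintype.sum_option, sum_filter, ← sum_add_distrib]
  have h0 : (if ext b s none = !b then c2 (dg (addV A N) (ext b s) none) else 0) = 0 := by
    cases b <;> simp
  rw [h0, zero_add]
  apply sum_congr rfl
  intro v _
  simp only [ext_some, dg_some]
  by_cases hN : N v = true
  · cases b <;> cases hs : s v <;> simp [hN, c2_succ]
  · cases b <;> cases hs : s v <;> simp [hN]

theorem st_ext_true (A : V → V → Bool) (N : V → Bool) (s : V → Bool) :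
    st (addV A N) (ext true s) = ((st A s).1 + (PS N s true).card,
      (st A s).2.1 + ∑ v ∈ PS N s true, dg A s v, (st A s).2.2 + c2 (PS N s true).card) := by
  have h1 := sd_other_id A N true s
  have h2 := sd_other_c2 A N true s
  have h3 := sd_same c2 A N true s
  simp only [Bool.not_true] at h1 h2
  simp only [st, h1, h2, h3]
  rw [add_comm (c2 _)]

theorem st_ext_false (A : V → V → Bool) (N : V → Bool) (s : V → Bool) :
    st (addV A N) (ext false s) = ((st A s).1 + (PS N s false).card,
      (st A s).2.1 + c2 (PS N s false).card, (st A s).2.2 + ∑ v ∈ PS N s false, dg A s v) := by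
  have h1 := sd_same id A N false s
  have h2 := sd_other_c2 A N false s
  have h3 := sd_same c2 A N false s
  simp only [Bool.not_false] at h2
  simp only [st, h1, h2, h3]
  simp only [id]
  rw [add_comm (c2 _), add_comm (Finset.card _)]

theorem sides_eq (A : V → V → Bool) (hA : IsG A) (s : V → Bool) :
    sd id A s false = sd id A s true := by
  unfold sd dg
  simp only [id]
  have h1 : ∀ b : Bool, (∑ v, if s v = b then (∑ u, if A v u = true ∧ s u ≠ s v then 1 else 0) else 0)
      = ∑ v, ∑ u, if s v = b ∧ A v u = true ∧ s u ≠ b then 1 else 0 := by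
    intro b
    apply sum_congr rfl
    intro v _
    by_cases h : s v = b
    · simp [h]
    · simp [h]
  rw [h1, h1, sum_comm]
  apply sum_congr rfl
  intro v _
  apply sum_congr rfl
  intro u _
  rw [hA.symm u v]
  cases hu : s u <;> cases hv : s v <;> simp

end Ext

section Bounds
variable {V : Type} [Fintype V]

theorem a_le (A : V → V → Bool) (N : V → Bool) (b : Bool) (s : V → Bool) (w : ℕ → ℕ) :
    ∑ v ∈ PS N s b, w (dg A s v) ≤ sd w A s (!b) := by
  unfold sd PS
  rw [sum_filter]
  apply sum_le_sum
  intro v _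
  cases b <;> cases hs : s v <;> simp <;> split_ifs <;> simp

theorem rest_le (A : V → V → Bool) (N : V → Bool) (b : Bool) (s : V → Bool) :
    sd c2 A s (!b) ≤ ∑ v ∈ PS N s b, c2 (dg A s v) +
      c2 (sd id A s (!b) - ∑ v ∈ PS N s b, dg A s v) := by
  have key : ∀ w : ℕ → ℕ, sd w A s (!b) = ∑ v ∈ PS N s b, w (dg A s v) +
      ∑ v ∈ univ.filter (fun v => s v = !b ∧ ¬ (N v = true ∧ s v ≠ b)), w (dg A s v) := by
    intro w
    unfold sd PS
    rw [sum_filter, sum_filter, ← sum_add_distrib]
    apply sum_congr rfl
    intro v _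
    cases b <;> cases hs : s v <;> cases hN : N v <;> simp
  rw [key c2]
  have h2 := key id
  simp only [id] at h2
  rw [h2, Nat.add_sub_cancel_left]
  have := c2_sum_le (univ.filter (fun v => s v = !b ∧ ¬ (N v = true ∧ s v ≠ b))) (fun v => dg A s v)
  omega

end Bounds

section Iso

def Iso {V W : Type} (A : V → V → Bool) (B : W → W → Bool) : Prop :=
  ∃ e : V ≃ W, ∀ u v, A u v = B (e u) (e v)

theorem Iso.refl {V : Type} (A : V → V → Bool) : Iso A A := ⟨Equiv.refl _, fun _ _ => rfl⟩

theorem Iso.symm {V W : Type} {A : V → V → Bool} {B : W → W → Bool} (h : Iso A B) : Iso B A := by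
  obtain ⟨e, he⟩ := h
  exact ⟨e.symm, fun u v => by rw [he]; simp⟩

theorem Iso.trans {V W U : Type} {A : V → V → Bool} {B : W → W → Bool} {C : U → U → Bool}
    (h : Iso A B) (h' : Iso B C) : Iso A C := by
  obtain ⟨e, he⟩ := h
  obtain ⟨f, hf⟩ := h'
  exact ⟨e.trans f, fun u v => by rw [he, hf]; rfl⟩

theorem Iso.isG {V W : Type} [Fintype V] [Fintype W] {A : V → V → Bool} {B : W → W → Bool}
    (h : Iso A B) (hA : IsG B) : IsG A := by
  obtain ⟨e, he⟩ := h
  exact ⟨fun u v => by rw [he, he, hA.symm], fun v => by rw [he, hA.irr]⟩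

variable {V W : Type} [Fintype V] [Fintype W]

theorem Iso.card {A : V → V → Bool} {B : W → W → Bool} (h : Iso A B) :
    Fintype.card V = Fintype.card W := by
  obtain ⟨e, _⟩ := h
  exact Fintype.card_congr e

theorem dg_iso {A : V → V → Bool} {B : W → W → Bool} (e : V ≃ W)
    (he : ∀ u v, A u v = B (e u) (e v)) (s : W → Bool) (v : V) :
    dg A (s ∘ e) v = dg B s (e v) := by
  unfold dg
  apply Fintype.sum_equiv e
  intro u
  simp [he]

theorem sd_iso {A : V → V → Bool} {B : W → W → Bool} (e : V ≃ W)
    (he : ∀ u v, A u v = B (e u) (e v)) (s : W → Bool) (w : ℕ → ℕ) (b : Bool) :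
    sd w A (s ∘ e) b = sd w B s b := by
  unfold sd
  apply Fintype.sum_equiv e
  intro v
  simp [dg_iso e he]

theorem st_iso {A : V → V → Bool} {B : W → W → Bool} (e : V ≃ W)
    (he : ∀ u v, A u v = B (e u) (e v)) (s : W → Bool) : st A (s ∘ e) = st B s := by
  simp [st, sd_iso e he]

theorem deg_iso {A : V → V → Bool} {B : W → W → Bool} (e : V ≃ W)
    (he : ∀ u v, A u v = B (e u) (e v)) (v : V) : deg A v = deg B (e v) := by
  unfold deg
  apply Fintype.sum_equiv e
  intro u
  simp [he]

theorem SS_iso [DecidableEq V] [DecidableEq W] {A : V → V → Bool} {B : W → W → Bool}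
    (h : Iso A B) (F : ℕ × ℕ × ℕ → ℤ) : SS A F = SS B F := by
  obtain ⟨e, he⟩ := h
  unfold SS
  symm
  apply Fintype.sum_equiv (Equiv.arrowCongr e.symm (Equiv.refl Bool))
  intro s
  rw [← st_iso e he s]
  rfl

end Iso

section SumExt
variable {V : Type} [Fintype V] [DecidableEq V]

theorem sum_option_fun {M : Type} [AddCommMonoid M] (F : (Option V → Bool) → M) :
    ∑ s : Option V → Bool, F s = ∑ s : V → Bool, (F (ext false s) + F (ext true s)) := by
  have e1 : ∑ s : Option V → Bool, F s = ∑ x : Bool × (V → Bool), F (ext x.1 x.2) := by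
    symm
    apply Fintype.sum_equiv (Equiv.piOptionEquivProd (β := fun _ : Option V => Bool)).symm
    intro x
    congr 1
    funext o
    cases o <;> rfl
  rw [e1, Fintype.sum_prod_type, Fintype.sum_bool, add_comm, ← sum_add_distrib]

theorem SS_addV (A : V → V → Bool) (N : V → Bool) (F : ℕ × ℕ × ℕ → ℤ) :
    SS (addV A N) F = ∑ s : V → Bool,
      (F (st (addV A N) (ext false s)) + F (st (addV A N) (ext true s))) := by
  unfold SS
  rw [sum_option_fun]

theorem SS_addV_empty (A : V → V → Bool) (F : ℕ × ℕ × ℕ → ℤ) :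
    SS (addV A (fun _ => false)) F = 2 * SS A F := by
  rw [SS_addV]
  unfold SS
  rw [mul_sum]
  apply sum_congr rfl
  intro s _
  have h1 : PS (fun _ : V => false) s true = ∅ := by simp [PS]
  have h2 : PS (fun _ : V => false) s false = ∅ := by simp [PS]
  rw [st_ext_true, st_ext_false, h1, h2]
  simp [c2]
  ring

end SumExt

end Pool.Agent.Helper95.GC
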