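import Pool.Agent.Helper95.GC.ETree

/-!
Kernel check of the tree.
-/

namespace Pool.Agent.Helper95.GC.E

theorem cT0 : allT (chk par T) T0 = true := by decide +kernel

theorem cT1 : allT (chk par T) T1 = true := by decide +kernel

theorem cT3 : allT (chk par T) T3 = true := by decide +kernel

theorem cT4 : allT (chk par T) T4 = true := by decide +kernel

theorem cT7 : allT (chk par T) T7 = true := by decide +kernel

theorem cT8 : allT (chk par T) T8 = true := by decide +kernel

theorem cT10 : allT (chk par T) T10 = true := by decide +kernel

theorem cT11 : allT (chk par T) T11 = true := by decide +kernel

theorem cT15 : allT (chk par T) T15 = true := by decide +kernel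

theorem cT16 : allT (chk par T) T16 = true := by decide +kernel

theorem cT18 : allT (chk par T) T18 = true := by decide +kernel

theorem cT19 : allT (chk par T) T19 = true := by decide +kernel

theorem cT22 : allT (chk par T) T22 = true := by decide +kernel

theorem cT23 : allT (chk par T) T23 = true := by decide +kernel

theorem cT25 : allT (chk par T) T25 = true := by decide +kernel

theorem cT26 : allT (chk par T) T26 = true := by decide +kernel

theorem cT2 : allT (chk par T) T2 = true := by
  have h : chk par T 4 4295163910 (.ex 23698942346985472 [1180944209739784, 917061419073540, 1180944209805324, 1180944209870850, 1180944209936394, 917061419270150, 1179913417719809, 1179913417785353, 916030627119109, 1180944210001923, 1180944210067467, 917061419401223]) = true := by decide +kernel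
  show (allT (chk par T) T0 && (chk par T 4 4295163910 (.ex 23698942346985472 [1180944209739784, 917061419073540, 1180944209805324, 1180944209870850, 1180944209936394, 917061419270150, 1179913417719809, 1179913417785353, 916030627119109, 1180944210001923, 1180944210067467, 917061419401223]) && allT (chk par T) T1)) = true
  rw [cT0, cT1, h]; rfl

theorem cT5 : allT (chk par T) T5 = true := by
  have h : chk par T 5 281487862005768 (.ex 456044506579271680 [23698942351310864, 23698942351376392, 23698942351441924, 23682449677025282, 23698942351507457, 23696816342106129, 23698942351573001, 23698942351638533, 23682449677221891]) = true := by decide +kernel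
  show (allT (chk par T) T3 && (chk par T 5 281487862005768 (.ex 456044506579271680 [23698942351310864, 23698942351376392, 23698942351441924, 23682449677025282, 23698942351507457, 23696816342106129, 23698942351573001, 23698942351638533, 23682449677221891]) && allT (chk par T) T4)) = true
  rw [cT3, cT4, h]; rfl

theorem cT6 : allT (chk par T) T6 = true := by
  have h : chk par T 5 281483566841864 (.ex 456044506576781312 [23698942348820496, 23698942348886024, 23435059558219780, 23698942348951554, 23698942349017089, 23698942349082641, 23698942349148169, 23435059558481925, 19425213665837059]) = true := by decide +kernel
  show (allT (chk par T) T2 && (chk par T 5 281483566841864 (.ex 456044506576781312 [23698942348820496, 23698942348886024, 23435059558219780, 23698942348951554, 23698942349017089, 23698942349082641, 23698942349148169, 23435059558481925, 19425213665837059]) && allT (chk par T) T5)) = true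
  rw [cT2, cT5, h]; rfl

theorem cT9 : allT (chk par T) T9 = true := by
  have h : chk par T 6 18447307040843104257 (.ex 8526495038829821952 [456043346940002336, 387894521034047504, 456044442157121544, 455780559366455300, 456044506581762050, 456044506581827585]) = true := by decide +kernel
  show (allT (chk par T) T7 && (chk par T 6 18447307040843104257 (.ex 8526495038829821952 [456043346940002336, 387894521034047504, 456044442157121544, 455780559366455300, 456044506581762050, 456044506581827585]) && allT (chk par T) T8)) = true
  rw [cT7, cT8, h]; rfl

theorem cT12 : allT (chk par T) T12 = true := by
  have h : chk par T 6 18447307036548268040 .pr = true := by decide +kernel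
  show (allT (chk par T) T10 && (chk par T 6 18447307036548268040 .pr && allT (chk par T) T11)) = true
  rw [cT10, cT11, h]; rfl

theorem cT13 : allT (chk par T) T13 = true := by
  have h : chk par T 7 1208962713665739432132609 .pr = true := by decide +kernel
  show (allT (chk par T) T9 && (chk par T 7 1208962713665739432132609 .pr && allT (chk par T) T12)) = true
  rw [cT9, cT12, h]; rfl

theorem cT14 : allT (chk par T) T14 = true := by
  have h : chk par T 5 281487862071311 .pr = true := by decide +kernel
  show (allT (chk par T) T6 && (chk par T 5 281487862071311 .pr && allT (chk par T) T13)) = true
  rw [cT6, cT13, h]; rfl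

theorem cT17 : allT (chk par T) T17 = true := by
  have h : chk par T 7 1208981160972754505170945 .pr = true := by decide +kernel
  show (allT (chk par T) T15 && (chk par T 7 1208981160972754505170945 .pr && allT (chk par T) T16)) = true
  rw [cT15, cT16, h]; rfl

theorem cT20 : allT (chk par T) T20 = true := by
  have h : chk par T 6 18447588524410273799 .pr = true := by decide +kernel
  show (allT (chk par T) T18 && (chk par T 6 18447588524410273799 .pr && allT (chk par T) T19)) = true
  rw [cT18, cT19, h]; rfl

theorem cT21 : allT (chk par T) T21 = true := by
  have h : chk par T 6 18447588524410011656 .pr = true := by decide +kernel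
  show (allT (chk par T) T17 && (chk par T 6 18447588524410011656 .pr && allT (chk par T) T20)) = true
  rw [cT17, cT20, h]; rfl

theorem cT24 : allT (chk par T) T24 = true := by
  have h : chk par T 7 1208962714228710860914704 .pr = true := by decide +kernel
  show (allT (chk par T) T22 && (chk par T 7 1208962714228710860914704 .pr && allT (chk par T) T23)) = true
  rw [cT22, cT23, h]; rfl

theorem cT27 : allT (chk par T) T27 = true := by
  have h : chk par T 8 79230580402797617957855821825 .pr = true := by decide +kernel
  show (allT (chk par T) T25 && (chk par T 8 79230580402797617957855821825 .pr && allT (chk par T) T26)) = true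
  rw [cT25, cT26, h]; rfl

theorem cT28 : allT (chk par T) T28 = true := by
  have h : chk par T 8 79230580439691669063818280961 .pr = true := by decide +kernel
  show (allT (chk par T) T24 && (chk par T 8 79230580439691669063818280961 .pr && allT (chk par T) T27)) = true
  rw [cT24, cT27, h]; rfl

theorem cT29 : allT (chk par T) T29 = true := by
  have h : chk par T 7 1208981159846854598459396 .pr = true := by decide +kernel
  show (allT (chk par T) T21 && (chk par T 7 1208981159846854598459396 .pr && allT (chk par T) T28)) = true
  rw [cT21, cT28, h]; rfl

theorem cT30 : allT (chk par T) T30 = true := by
  have h : chk par T 9 5192455314859874603949761421639681 .pr = true := by decide +kernel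
  show (allT (chk par T) T14 && (chk par T 9 5192455314859874603949761421639681 .pr && allT (chk par T) T29)) = true
  rw [cT14, cT29, h]; rfl

theorem cT : allT (chk par T) T = true := cT30

end Pool.Agent.Helper95.GC.E
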