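import Pool.Agent.Helper95.GC.Bound

/-!
Tables of the certificate.
-/

namespace Pool.Agent.Helper95.GC.E

def L : List (ℕ × ℤ × ℤ × ℤ) := [(0, 560, 400, 400), (1, -400, 152, 240), (130, -80, 133, 187), (387, 240, 120, 26), (772, -52, 0, 26), (10, -80, 133, 187), (27, 240, 120, 26), (52, -52, 0, 26), (2, 152, 76, 48), (131, 0, 0, 0), (139, 26, 13, 48), (388, 0, 0, 0), (396, 0, 0, 0), (11, 0, 0, 0), (28, 0, 0, 0), (156, 0, 0, 0), (260, 0, 0, 0), (268, -48, 0, 24), (276, -294, 0, 147), (140, 0, 0, 0), (20, 0, 0, 0), (148, -48, 0, 24), (3, 0, 0, 0), (132, 0, 0, 0), (12, 0, 0, 0), (4, 0, 0, 0)]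

def lk : List (ℕ × ℤ × ℤ × ℤ) → ℕ → ℤ × ℤ × ℤ
  | [], _ => (0, 0, 0)
  | x :: l, c => bif Nat.beq x.1 c then x.2 else lk l c

def tab (c : ℕ) : ℕ :=
  (Bool.rec (motive := fun _ => ℕ) (Bool.rec (motive := fun _ => ℕ) (Bool.rec (motive := fun _ => ℕ) (Bool.rec (motive := fun _ => ℕ) (Bool.rec (motive := fun _ => ℕ) 239807672958953979905 838860801 (Nat.ble c 396)) (Bool.rec (motive := fun _ => ℕ) 838860801 239808200725147680769 (Nat.ble c 387)) (Nat.ble c 388)) (Bool.rec (motive := fun _ => ℕ) (Bool.rec (motive := fun _ => ℕ) 1355835689417874341889 221360928885252816897 (Nat.ble c 268)) 838860801 (Nat.ble c 260)) (Nat.ble c 276)) (Bool.rec (motive := fun _ => ℕ) (Bool.rec (motive := fun _ => ℕ) (Bool.rec (motive := fun _ => ℕ) 838860801 221360928885252816897 (Nat.ble c 148)) 838860801 (Nat.ble c 140)) (Bool.rec (motive := fun _ => ℕ) (Bool.rec (motive := fun _ => ℕ) 442721914944527269889 838860801 (Nat.ble c 132)) 838860801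 (Nat.ble c 131)) (Nat.ble c 139)) (Nat.ble c 156)) (Bool.rec (motive := fun _ => ℕ) (Bool.rec (motive := fun _ => ℕ) (Bool.rec (motive := fun _ => ℕ) (Bool.rec (motive := fun _ => ℕ) 1724771155832700141569 239807672958953979905 (Nat.ble c 52)) (Bool.rec (motive := fun _ => ℕ) 838860801 239808200725147680769 (Nat.ble c 27)) (Nat.ble c 28)) (Bool.rec (motive := fun _ => ℕ) (Bool.rec (motive := fun _ => ℕ) 838860801 838860801 (Nat.ble c 12)) 838860801 (Nat.ble c 11)) (Nat.ble c 20)) (Bool.rec (motive := fun _ => ℕ) (Bool.rec (motive := fun _ => ℕ) (Bool.rec (motive := fun _ => ℕ) 1724771155832700141569 838860801 (Nat.ble c 4)) 838860801 (Nat.ble c 3)) (Bool.rec (motive := fun _ => ℕ) (Bool.rec (motive := fun _ => ℕ) 442722192021721710593 2213609957348215881729 (Nat.ble c 1)) 3689350573962528030721 (Nat.ble c 0)) (Nat.ble c 2)) (Nat.ble c 10)) (Nat.ble c 130))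

def vs : List (ℕ × ℕ × ℕ) := [(0, 0, 0), (1, 0, 0), (2, 0, 1), (3, 0, 3), (4, 0, 6), (2, 1, 0), (3, 3, 0), (4, 6, 0), (2, 0, 0), (3, 0, 1), (3, 1, 1), (4, 0, 3), (4, 1, 3), (3, 1, 0), (4, 3, 0), (4, 3, 1), (4, 0, 2), (4, 1, 2), (4, 2, 2), (4, 1, 1), (4, 2, 0), (4, 2, 1), (3, 0, 0), (4, 0, 1), (4, 1, 0), (4, 0, 0)]

def par : Par where
  K := 4
  vs := vs
  phi := fun σ => (lk L (code σ)).1
  pp := fun σ => (lk L (code σ)).2.1
  pm := fun σ => (lk L (code σ)).2.2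
  tab := tab
  B := 2097152
  O := 400
  M := 961
  AA := 80
  D := 0
  S := 0

theorem par_ok : par.OK := Par.ok_of par (by decide +kernel)

end Pool.Agent.Helper95.GC.E
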