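import Pool.Agent.Helper95.GC.Rows

/-!
Correctness of the packed evaluation.
-/

namespace Pool.Agent.Helper95.GC

open Finset

def bn (b : Bool) : ℕ := b.toNat

section Ops
variable {n : ℕ} (A : Fin n → Fin n → Bool) (N s : Fin n → Bool)

/-- indicator of `PS N s b` -/
def pI (b : Bool) (i : Fin n) : ℕ := if N i = true ∧ s i ≠ b then 1 else 0

theorem sum_pI (b : Bool) : ∑ i, pI N s b i = (PS N s b).card := by
  unfold PS pI
  rw [card_filter]

theorem pI_lt (b : Bool) (i : Fin n) : pI N s b i < 32 := by
  unfold pI; split_ifs <;> omega

theorem land_false : pk n (fun i => (N i).toNat) &&& pk n (fun i => (s i).toNat) =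
    pk n (pI N s false) := by
  rw [pk_land]
  · apply pk_congr
    intro i
    unfold pI
    cases N i <;> cases s i <;> simp
  · intro i; cases N i <;> simp
  · intro i; cases s i <;> simp

theorem sub_true : pk n (fun i => (N i).toNat) - pk n (pI N s false) = pk n (pI N s true) := by
  have : pk n (fun i => (N i).toNat) = pk n (pI N s false) + pk n (pI N s true) := by
    rw [pk_add]
    apply pk_congr
    intro i
    unfold pI
    cases N i <;> cases s i <;> simp
  omega

theorem dg_le (hA : IsG A) (i : Fin n) : dg A s i ≤ (st A s).1 := by
  have h1 : dg A s i ≤ sd id A s (s i) := by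
    unfold sd
    have := single_le_sum (f := fun v => if s v = s i then id (dg A s v) else 0)
      (fun v _ => Nat.zero_le _) (mem_univ i)
    simpa using this
  have h2 : sd id A s (s i) = (st A s).1 := by
    cases s i
    · rfl
    · exact (sides_eq A hA s).symm
  rw [h2] at h1
  exact h1

theorem land_deg (hA : IsG A) (h : (st A s).1 ≤ 30) (b : Bool) :
    ((31 * pk n (pI N s b)) &&& pk n (dg A s)) % 31 = ∑ v ∈ PS N s b, dg A s v := by
  rw [pk_mul, pk_land]
  · have e1 : ∑ v ∈ PS N s b, dg A s v = ∑ i, ((31 * pI N s b i) &&& dg A s i) := by
      unfold PS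
      rw [sum_filter]
      apply sum_congr rfl
      intro i _
      unfold pI
      split_ifs with hc
      · have := dg_le A s hA i
        have h32 := Nat.and_two_pow_sub_one_eq_mod (dg A s i) 5
        rw [Nat.land_comm]
        norm_num at h32 ⊢
        omega
      · simp
    rw [e1]
    apply pk_mod_of_lt
    rw [← e1]
    have h1 := a_le A N b s id
    simp only [id] at h1
    have h2 : sd id A s (!b) = (st A s).1 := by
      cases b
      · exact (sides_eq A hA s).symm
      · rfl
    have h3 : ∑ v ∈ PS N s b, dg A s v ≤ (st A s).1 := by
      rw [← h2]; exact h1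
    omega
  · intro i
    have := pI_lt N s b i
    unfold pI
    split_ifs <;> simp
  · intro i
    have := dg_le A s hA i
    omega

theorem mod_card (hn : n ≤ 30) (b : Bool) : pk n (pI N s b) % 31 = (PS N s b).card := by
  rw [pk_mod_of_lt, sum_pI]
  rw [sum_pI]
  have : (PS N s b).card ≤ (univ : Finset (Fin n)).card := card_le_card (filter_subset _ _)
  simp at this
  omega

end Ops

section Step
variable (tab : ℕ → ℕ) (K : ℕ)

/-- the term of the partially processed sum -/
def trm (rest : List (List Bool)) (rows : List (List Bool)) (s : Fin rows.length → Bool) : ℕ :=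
  if (st (GF rows) s).1 ≤ K then
    evp tab K (rest.map pkl) (pk rows.length (fun i => (s i).toNat)) (pk rows.length (dg (GF rows) s))
      (st (GF rows) s).1 (st (GF rows) s).2.1 (st (GF rows) s).2.2
  else 0

theorem pk_dg_cons (r : List Bool) (rows : List (List Bool)) (b : Bool)
    (s : Fin rows.length → Bool) :
    pk (rows.length + 1) (dg (GF (r :: rows)) (Fin.cons b s : Fin (rows.length + 1) → Bool)) =
      32 * (pk rows.length (dg (GF rows) s) + pk rows.length (pI (rowN r rows.length) s b)) +
        (PS (rowN r rows.length) s b).card := by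
  rw [pk_succ, dg_cons_zero, pk_add]
  congr 2
  apply pk_congr
  intro i
  rw [dg_cons_succ]
  unfold pI
  congr 1
  cases rowN r rows.length i <;> cases s i <;> cases b <;> simp

theorem pk_s_cons (n : ℕ) (b : Bool) (s : Fin n → Bool) :
    pk (n + 1) (fun i => ((Fin.cons b s : Fin (n + 1) → Bool) i).toNat) =
      32 * pk n (fun i => (s i).toNat) + b.toNat := by
  rw [pk_succ]
  simp

theorem trm_cons (rest : List (List Bool)) (r : List Bool) (rows : List (List Bool)) (b : Bool)
    (s : Fin rows.length → Bool) :
    trm tab K rest (r :: rows) (Fin.cons b s : Fin (rows.length + 1) → Bool) =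
      if (st (addV (GF rows) (rowN r rows.length)) (ext b s)).1 ≤ K then
        evp tab K (rest.map pkl) (32 * pk rows.length (fun i => (s i).toNat) + b.toNat)
          (32 * (pk rows.length (dg (GF rows) s) + pk rows.length (pI (rowN r rows.length) s b)) +
            (PS (rowN r rows.length) s b).card)
          (st (addV (GF rows) (rowN r rows.length)) (ext b s)).1
          (st (addV (GF rows) (rowN r rows.length)) (ext b s)).2.1
          (st (addV (GF rows) (rowN r rows.length)) (ext b s)).2.2
      else 0 := by
  show (if (st (GF (r :: rows)) (Fin.cons b s : Fin (rows.length + 1) → Bool)).1 ≤ K then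
    evp tab K (rest.map pkl)
      (pk (rows.length + 1) (fun i => ((Fin.cons b s : Fin (rows.length + 1) → Bool) i).toNat))
      (pk (rows.length + 1) (dg (GF (r :: rows)) (Fin.cons b s : Fin (rows.length + 1) → Bool)))
      (st (GF (r :: rows)) (Fin.cons b s : Fin (rows.length + 1) → Bool)).1
      (st (GF (r :: rows)) (Fin.cons b s : Fin (rows.length + 1) → Bool)).2.1
      (st (GF (r :: rows)) (Fin.cons b s : Fin (rows.length + 1) → Bool)).2.2
  else 0) = _
  rw [pk_dg_cons, pk_s_cons, st_cons]

theorem trm_step (hK : K ≤ 30) (r : List Bool) (rest rows : List (List Bool))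
    (hr : r.length ≤ rows.length) (hn : rows.length ≤ 30) (s : Fin rows.length → Bool) :
    trm tab K (r :: rest) rows s =
      trm tab K rest (r :: rows) (Fin.cons false s : Fin (rows.length + 1) → Bool) +
      trm tab K rest (r :: rows) (Fin.cons true s : Fin (rows.length + 1) → Bool) := by
  have hA := GF_isG rows
  rw [trm_cons, trm_cons, st_ext_false, st_ext_true]
  unfold trm
  by_cases h : (st (GF rows) s).1 ≤ K
  · rw [if_pos h]
    have e1 : pkl r = pk rows.length (fun i => (rowN r rows.length i).toNat) := pkl_eq _ r hr
    have l1 : pkl r &&& pk rows.length (fun i => (s i).toNat) =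
        pk rows.length (pI (rowN r rows.length) s false) := by
      rw [e1, land_false]
    have l2 : pkl r - pk rows.length (pI (rowN r rows.length) s false) =
        pk rows.length (pI (rowN r rows.length) s true) := by
      rw [e1, sub_true]
    rw [List.map_cons, evp_cons, l1, l2, mod_card _ _ hn, mod_card _ _ hn,
      land_deg _ _ _ hA (by omega), land_deg _ _ _ hA (by omega)]
    simp
  · rw [if_neg h]
    simp only
    rw [if_neg (by omega), if_neg (by omega)]

/-- rows are well formed: every row is at most as long as the number of older vertices -/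
def WFr : List (List Bool) → Prop
  | [] => True
  | r :: rs => r.length ≤ rs.length ∧ WFr rs

theorem trm_sum (hK : K ≤ 30) : ∀ (rest rows : List (List Bool)), WFr (rest.reverse ++ rows) →
    (rest.reverse ++ rows).length ≤ 30 →
    ∑ s : Fin rows.length → Bool, trm tab K rest rows s =
      ∑ s : Fin (rest.reverse ++ rows).length → Bool, trm tab K [] (rest.reverse ++ rows) s := by
  intro rest
  induction rest with
  | nil => intro rows _ _; rfl
  | cons r rest ih =>
    intro rows hw hl
    have e1 : (r :: rest).reverse ++ rows = rest.reverse ++ (r :: rows) := by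
      rw [List.reverse_cons, List.append_assoc]; rfl
    rw [e1] at hw hl
    have key : ∑ s : Fin (r :: rows).length → Bool, trm tab K rest (r :: rows) s =
        ∑ s : Fin (rest.reverse ++ (r :: rows)).length → Bool,
          trm tab K [] (rest.reverse ++ (r :: rows)) s := ih (r :: rows) hw hl
    rw [e1, ← key]
    have hw2 : ∀ (l : List (List Bool)) (q : List Bool) (m : List (List Bool)),
        WFr (l ++ q :: m) → q.length ≤ m.length := by
      intro l
      induction l with
      | nil => intro q m h; exact h.1
      | cons x l ih2 => intro q m h; exact ih2 q m h.2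
    have hr := hw2 _ _ _ hw
    have hn : rows.length ≤ 30 := by
      simp only [List.length_append, List.length_cons] at hl
      omega
    have e2 : ∑ s : Fin (r :: rows).length → Bool, trm tab K rest (r :: rows) s =
        ∑ s : Fin (rows.length + 1) → Bool, trm tab K rest (r :: rows) s := rfl
    rw [e2, sum_cons]
    apply sum_congr rfl
    intro s _
    exact trm_step tab K hK r rest rows hr hn s

theorem evp_main (hK : K ≤ 30) (rows : List (List Bool)) (hw : WFr rows)
    (hl : rows.length ≤ 30) :
    evp tab K (rows.reverse.map pkl) 0 0 0 0 0 =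
      ∑ s : Fin rows.length → Bool, if (st (GF rows) s).1 ≤ K then tab (code (st (GF rows) s)) else 0 := by
  have h := trm_sum tab K hK rows.reverse [] (by rw [List.reverse_reverse, List.append_nil]; exact hw)
    (by rw [List.reverse_reverse, List.append_nil]; exact hl)
  rw [List.reverse_reverse, List.append_nil] at h
  have e1 : ∑ s : Fin ([] : List (List Bool)).length → Bool, trm tab K rows.reverse [] s =
      evp tab K (rows.reverse.map pkl) 0 0 0 0 0 := by
    have hd : ∑ s : Fin ([] : List (List Bool)).length → Bool, trm tab K rows.reverse [] s =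
      ∑ s : Fin 0 → Bool, trm tab K rows.reverse [] s := rfl
    rw [hd, Fintype.sum_unique]
    unfold trm
    have hz : ∀ s : Fin 0 → Bool, st (GF []) s = (0, 0, 0) := by
      intro s
      simp [st, sd]
    have hz2 : st (GF []) (default : Fin 0 → Bool) = (0, 0, 0) := hz _
    erw [hz2]
    simp only [Nat.zero_le, if_true]
    rfl
  rw [← e1, h]
  apply sum_congr rfl
  intro s _
  unfold trm
  rfl

end Step

end Pool.Agent.Helper95.GC
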