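import Pool.Agent.Helper95.GC.Basic

/-!
Numeric transitions of the cut statistics, closure of the list of states, and the game step.
-/

namespace Pool.Agent.Helper95.GC

open Finset

/-- there are `p` naturals with sum `a` and sum of `C(d,2)` equal to `b` -/
def Dk : ℕ → ℕ → ℕ → Bool
  | 0, a, b => (a == 0) && (b == 0)
  | p + 1, a, b => (List.range (a + 1)).any (fun d => decide (c2 d ≤ b) && Dk p (a - d) (b - c2 d))

theorem Dk_of {V : Type} (S : Finset V) (f : V → ℕ) :
    Dk S.card (∑ v ∈ S, f v) (∑ v ∈ S, c2 (f v)) = true := by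
  classical
  induction S using Finset.induction_on with
  | empty => simp [Dk]
  | insert a S ha ih =>
    rw [card_insert_of_notMem ha, sum_insert ha, sum_insert ha]
    unfold Dk
    rw [List.any_eq_true]
    refine ⟨f a, List.mem_range.2 (by omega), ?_⟩
    simp [ih]

def okB (p a e c : ℕ) : Bool :=
  decide (a ≤ e) && (List.range (c + 1)).any (fun b => Dk p a b && decide (c ≤ b + c2 (e - a)))

theorem ok_PS {V : Type} [Fintype V] (A : V → V → Bool) (N : V → Bool) (b : Bool) (s : V → Bool) :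
    okB (PS N s b).card (∑ v ∈ PS N s b, dg A s v) (sd id A s (!b)) (sd c2 A s (!b)) = true := by
  unfold okB
  have h1 := a_le A N b s id
  simp only [id] at h1
  have h2 := a_le A N b s c2
  have h3 := rest_le A N b s
  rw [Bool.and_eq_true, decide_eq_true_eq, List.any_eq_true]
  refine ⟨h1, ∑ v ∈ PS N s b, c2 (dg A s v), List.mem_range.2 (by omega), ?_⟩
  rw [Dk_of]
  simpa using h3

def opts (K e c : ℕ) : List (ℕ × ℕ) :=
  (List.range (K - e)).flatMap (fun q =>
    ((List.range (e + 1)).filter (fun a => okB (q + 1) a e c)).map (fun a => (q + 1, a)))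

theorem mem_opts {K e c p a : ℕ} (hp : 1 ≤ p) (hK : e + p ≤ K) (h : okB p a e c = true) :
    (p, a) ∈ opts K e c := by
  unfold opts
  rw [List.mem_flatMap]
  refine ⟨p - 1, List.mem_range.2 (by omega), ?_⟩
  have hp1 : p - 1 + 1 = p := by omega
  rw [hp1, List.mem_map]
  refine ⟨a, ?_, rfl⟩
  rw [List.mem_filter, List.mem_range]
  refine ⟨?_, h⟩
  unfold okB at h
  rw [Bool.and_eq_true, decide_eq_true_eq] at h
  omega

def closeB (K : ℕ) (vs : List (ℕ × ℕ × ℕ)) : Bool :=
  vs.all (fun σ =>
    (opts K σ.1 σ.2.1).all (fun x => vs.contains (σ.1 + x.1, σ.2.1 + x.2, σ.2.2 + c2 x.1)) &&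
    (opts K σ.1 σ.2.2).all (fun x => vs.contains (σ.1 + x.1, σ.2.1 + c2 x.1, σ.2.2 + x.2)))

def lst0 (K : ℕ) (f : ℕ × ℕ × ℕ → ℤ) (σ : ℕ × ℕ × ℕ) : List ℤ :=
  0 :: (opts K σ.1 σ.2.1).map (fun x => f (σ.1 + x.1, σ.2.1 + x.2, σ.2.2 + c2 x.1))

def lst1 (K : ℕ) (f : ℕ × ℕ × ℕ → ℤ) (σ : ℕ × ℕ × ℕ) : List ℤ :=
  0 :: (opts K σ.1 σ.2.2).map (fun x => f (σ.1 + x.1, σ.2.1 + c2 x.1, σ.2.2 + x.2))

def gameB (K : ℕ) (vs : List (ℕ × ℕ × ℕ)) (f g : ℕ × ℕ × ℕ → ℤ) : Bool :=
  vs.all (fun σ =>
    (lst0 K f σ).all (fun x => decide (x + f σ ≤ 2 * g σ) &&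
      (lst1 K f σ).all (fun y => decide (x + y ≤ 2 * g σ))) &&
    (lst1 K f σ).all (fun y => decide (f σ + y ≤ 2 * g σ)))

/-- value of a table with the convention `0` for more than `K` edges -/
def ex (K : ℕ) (f : ℕ × ℕ × ℕ → ℤ) (σ : ℕ × ℕ × ℕ) : ℤ := if σ.1 ≤ K then f σ else 0

section Step
variable {V : Type} [Fintype V]

theorem st_true_cases (K : ℕ) (A : V → V → Bool) (N s : V → Bool) :
    (PS N s true = ∅ ∧ st (addV A N) (ext true s) = st A s) ∨
    (PS N s true ≠ ∅ ∧ K < (st (addV A N) (ext true s)).1) ∨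
    (PS N s true ≠ ∅ ∧ ∃ x ∈ opts K (st A s).1 (st A s).2.1, st (addV A N) (ext true s) =
      ((st A s).1 + x.1, (st A s).2.1 + x.2, (st A s).2.2 + c2 x.1)) := by
  rw [st_ext_true]
  by_cases h : PS N s true = ∅
  · left
    refine ⟨h, ?_⟩
    rw [h]
    simp [c2]
  · right
    by_cases hK : (st A s).1 + (PS N s true).card ≤ K
    · right
      refine ⟨h, ((PS N s true).card, ∑ v ∈ PS N s true, dg A s v), ?_, rfl⟩
      apply mem_opts _ hK (ok_PS A N true s)
      exact Nat.succ_le_of_lt (card_pos.2 (nonempty_iff_ne_empty.2 h))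
    · left
      refine ⟨h, ?_⟩
      simp only
      omega

theorem st_false_cases (K : ℕ) (A : V → V → Bool) (hA : IsG A) (N s : V → Bool) :
    (PS N s false = ∅ ∧ st (addV A N) (ext false s) = st A s) ∨
    (PS N s false ≠ ∅ ∧ K < (st (addV A N) (ext false s)).1) ∨
    (PS N s false ≠ ∅ ∧ ∃ x ∈ opts K (st A s).1 (st A s).2.2, st (addV A N) (ext false s) =
      ((st A s).1 + x.1, (st A s).2.1 + c2 x.1, (st A s).2.2 + x.2)) := by
  rw [st_ext_false]
  by_cases h : PS N s false = ∅
  · left
    refine ⟨h, ?_⟩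
    rw [h]
    simp [c2]
  · right
    by_cases hK : (st A s).1 + (PS N s false).card ≤ K
    · right
      refine ⟨h, ((PS N s false).card, ∑ v ∈ PS N s false, dg A s v), ?_, rfl⟩
      apply mem_opts _ hK
      have := ok_PS A N false s
      rw [Bool.not_false, ← sides_eq A hA s] at this
      exact this
      exact Nat.succ_le_of_lt (card_pos.2 (nonempty_iff_ne_empty.2 h))
    · left
      refine ⟨h, ?_⟩
      simp only
      omega

theorem st_mono (A : V → V → Bool) (N s : V → Bool) (b : Bool) :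
    (st A s).1 ≤ (st (addV A N) (ext b s)).1 := by
  cases b
  · rw [st_ext_false]; simp
  · rw [st_ext_true]; simp

/-- all states of `A` are in the list or have more than `K` edges -/
def Val (K : ℕ) (vs : List (ℕ × ℕ × ℕ)) (A : V → V → Bool) : Prop :=
  ∀ s, st A s ∈ vs ∨ K < (st A s).1

theorem val_addV {K : ℕ} {vs : List (ℕ × ℕ × ℕ)} (hc : closeB K vs = true)
    {A : V → V → Bool} (hA : IsG A) (hv : Val K vs A) (N : V → Bool) : Val K vs (addV A N) := by
  intro s
  have hs : s = ext (s none) (fun v => s (some v)) := by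
    funext o; cases o <;> rfl
  rw [hs]
  generalize (fun v => s (some v)) = s'
  generalize s none = b
  rcases hv s' with h | h
  · unfold closeB at hc
    rw [List.all_eq_true] at hc
    have h1 := hc _ h
    rw [Bool.and_eq_true, List.all_eq_true, List.all_eq_true] at h1
    obtain ⟨h1, h2⟩ := h1
    cases b
    · rcases st_false_cases K A hA N s' with ⟨_, h3⟩ | ⟨_, h3⟩ | ⟨_, x, hx, h3⟩
      · left; rw [h3]; exact h
      · right; exact h3
      · left; rw [h3]; exact List.contains_iff_mem.1 (h2 x hx)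
    · rcases st_true_cases K A N s' with ⟨_, h3⟩ | ⟨_, h3⟩ | ⟨_, x, hx, h3⟩
      · left; rw [h3]; exact h
      · right; exact h3
      · left; rw [h3]; exact List.contains_iff_mem.1 (h1 x hx)
  · right
    exact lt_of_lt_of_le h (st_mono A N s' b)

variable [DecidableEq V]

theorem game_step {K : ℕ} {vs : List (ℕ × ℕ × ℕ)} {f g : ℕ × ℕ × ℕ → ℤ}
    (hg : gameB K vs f g = true) {A : V → V → Bool} (hA : IsG A) (hv : Val K vs A)
    (N : V → Bool) (hN : ∃ v, N v = true) :
    SS (addV A N) (ex K f) ≤ 2 * SS A (ex K g) := by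
  rw [SS_addV]
  unfold SS
  rw [mul_sum]
  apply sum_le_sum
  intro s _
  by_cases hK : (st A s).1 ≤ K
  · have hm : st A s ∈ vs := by
      rcases hv s with h | h
      · exact h
      · omega
    unfold gameB at hg
    rw [List.all_eq_true] at hg
    have h1 := hg _ hm
    rw [Bool.and_eq_true, List.all_eq_true, List.all_eq_true] at h1
    obtain ⟨h1, h2⟩ := h1
    have hex : ex K f (st A s) = f (st A s) := by unfold ex; rw [if_pos hK]
    have hexg : ex K g (st A s) = g (st A s) := by unfold ex; rw [if_pos hK]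
    have hT : (PS N s true = ∅ ∧ ex K f (st (addV A N) (ext true s)) = f (st A s)) ∨
        (PS N s true ≠ ∅ ∧ ex K f (st (addV A N) (ext true s)) ∈ lst0 K f (st A s)) := by
      rcases st_true_cases K A N s with ⟨h0, h3⟩ | ⟨h0, h3⟩ | ⟨h0, x, hx, h3⟩
      · left; exact ⟨h0, by rw [h3, hex]⟩
      · right; refine ⟨h0, ?_⟩
        unfold ex; rw [if_neg (by omega)]; simp [lst0]
      · right; refine ⟨h0, ?_⟩
        by_cases hk : (st (addV A N) (ext true s)).1 ≤ K
        · unfold ex; rw [if_pos hk, h3]; unfold lst0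
          exact List.mem_cons_of_mem _ (List.mem_map.2 ⟨x, hx, rfl⟩)
        · unfold ex; rw [if_neg hk]; simp [lst0]
    have hF : (PS N s false = ∅ ∧ ex K f (st (addV A N) (ext false s)) = f (st A s)) ∨
        (PS N s false ≠ ∅ ∧ ex K f (st (addV A N) (ext false s)) ∈ lst1 K f (st A s)) := by
      rcases st_false_cases K A hA N s with ⟨h0, h3⟩ | ⟨h0, h3⟩ | ⟨h0, x, hx, h3⟩
      · left; exact ⟨h0, by rw [h3, hex]⟩
      · right; refine ⟨h0, ?_⟩
        unfold ex; rw [if_neg (by omega)]; simp [lst1]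
      · right; refine ⟨h0, ?_⟩
        by_cases hk : (st (addV A N) (ext false s)).1 ≤ K
        · unfold ex; rw [if_pos hk, h3]; unfold lst1
          exact List.mem_cons_of_mem _ (List.mem_map.2 ⟨x, hx, rfl⟩)
        · unfold ex; rw [if_neg hk]; simp [lst1]
    have hne : ¬ (PS N s true = ∅ ∧ PS N s false = ∅) := by
      rintro ⟨ha, hb⟩
      obtain ⟨v, hv1⟩ := hN
      cases hsv : s v
      · have : v ∈ PS N s true := by simp [PS, hv1, hsv]
        rw [ha] at this; simp at this
      · have : v ∈ PS N s false := by simp [PS, hv1, hsv]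
        rw [hb] at this; simp at this
    rw [hexg]
    rcases hT with ⟨a1, a2⟩ | ⟨a1, a2⟩
    · rcases hF with ⟨b1, b2⟩ | ⟨b1, b2⟩
      · exact absurd ⟨a1, b1⟩ hne
      · rw [a2]
        have := h2 _ b2
        rw [decide_eq_true_eq] at this
        linarith
    · have h3 := h1 _ a2
      rw [Bool.and_eq_true, decide_eq_true_eq, List.all_eq_true] at h3
      rcases hF with ⟨b1, b2⟩ | ⟨b1, b2⟩
      · rw [b2]; linarith [h3.1]
      · have := h3.2 _ b2
        rw [decide_eq_true_eq] at this
        linarith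
  · have e1 := st_mono A N s true
    have e2 := st_mono A N s false
    unfold ex
    rw [if_neg (by omega), if_neg (by omega), if_neg (by omega)]
    simp

end Step

section Peel
variable {V : Type} [DecidableEq V]

/-- remove the vertex `x` -/
def rm (A : V → V → Bool) (x : V) : {v : V // v ≠ x} → {v : V // v ≠ x} → Bool :=
  fun u v => A u.1 v.1

def nb (A : V → V → Bool) (x : V) : {v : V // v ≠ x} → Bool := fun v => A x v.1

theorem peel_iso [Fintype V] {A : V → V → Bool} (hA : IsG A) (x : V) :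
    Iso A (addV (rm A x) (nb A x)) := by
  apply Iso.symm
  refine ⟨Equiv.optionSubtypeNe x, ?_⟩
  intro u v
  cases u with
  | none =>
    cases v with
    | none => simp [addV, hA.irr]
    | some v => simp [addV, nb]
  | some u =>
    cases v with
    | none => simp [addV, nb, hA.symm x]
    | some v => simp [addV, rm]

theorem rm_isG [Fintype V] {A : V → V → Bool} (hA : IsG A) (x : V) : IsG (rm A x) :=
  ⟨fun _ _ => hA.symm _ _, fun _ => hA.irr _⟩

end Peel

theorem addV_isG {V : Type} [Fintype V] {A : V → V → Bool} (hA : IsG A) (N : V → Bool) :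
    IsG (addV A N) := by
  constructor
  · intro u v
    cases u <;> cases v <;> simp [addV, hA.symm]
  · intro v
    cases v <;> simp [addV, hA.irr]

theorem val_iso {V W : Type} [Fintype V] [Fintype W] {K : ℕ} {vs : List (ℕ × ℕ × ℕ)}
    {A : V → V → Bool} {B : W → W → Bool} (h : Iso A B) (hv : Val K vs B) : Val K vs A := by
  obtain ⟨e, he⟩ := h
  intro s
  have := st_iso e he (s ∘ e.symm)
  have h2 : (s ∘ e.symm) ∘ e = s := by funext v; simp
  rw [h2] at this
  rw [this]
  exact hv _

theorem val_all {K : ℕ} {vs : List (ℕ × ℕ × ℕ)} (hc : closeB K vs = true)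
    (h0 : vs.contains (0, 0, 0) = true) : ∀ n : ℕ, ∀ (V : Type) [Fintype V] [DecidableEq V],
    Fintype.card V = n → ∀ A : V → V → Bool, IsG A → Val K vs A := by
  intro n
  induction n with
  | zero =>
    intro V _ _ hn A _ s
    left
    haveI : IsEmpty V := Fintype.card_eq_zero_iff.1 hn
    have : st A s = (0, 0, 0) := by simp [st, sd]
    rw [this]
    exact List.contains_iff_mem.1 h0
  | succ n ih =>
    intro V _ _ hn A hA
    have hne : 0 < Fintype.card V := by omega
    obtain ⟨x⟩ := Fintype.card_pos_iff.1 hne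
    have hcard : Fintype.card {v : V // v ≠ x} = n := by
      rw [Fintype.card_subtype_compl]
      simp [hn]
    exact val_iso (peel_iso hA x) (val_addV hc (rm_isG hA x) (ih _ hcard _ (rm_isG hA x)) _)

end Pool.Agent.Helper95.GC
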