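import Pool.Agent.Helper95.GC.Tree

/-!
Main induction: every graph is a node of the tree or an extension of a node with small potential.
-/

namespace Pool.Agent.Helper95.GC

open Finset

inductive Dt where
  | pr : Dt
  | ex : ℕ → List ℕ → Dt

inductive Tr where
  | nil : Tr
  | node : Tr → ℕ → ℕ → ℕ → Dt → Tr → Tr

def find : Tr → ℕ → Option (ℕ × ℕ × Dt)
  | .nil, _ => none
  | .node l i n m d r, t =>
    bif Nat.blt t i then find l t else bif Nat.blt i t then find r t else some (n, m, d)

def allT (f : ℕ → ℕ → Dt → Bool) : Tr → Bool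
  | .nil => true
  | .node l _ n m d r => allT f l && (f n m d && allT f r)

theorem allT_find (f : ℕ → ℕ → Dt → Bool) : ∀ (T : Tr), allT f T = true → ∀ t x,
    find T t = some x → f x.1 x.2.1 x.2.2 = true := by
  intro T
  induction T with
  | nil => intro _ t x h; simp [find] at h
  | node l i n m d r ihl ihr =>
    intro h t x hx
    unfold allT at h
    rw [Bool.and_eq_true, Bool.and_eq_true] at h
    obtain ⟨h1, h2, h3⟩ := h
    unfold find at hx
    cases hb : Nat.blt t i
    · rw [hb, cond_false] at hx
      cases hc : Nat.blt i t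
      · rw [hc, cond_false] at hx
        simp only [Option.some.injEq] at hx
        rw [← hx]; exact h2
      · rw [hc, cond_true] at hx
        exact ihr h3 t x hx
    · rw [hb, cond_true] at hx
      exact ihl h1 t x hx

def frcB (n : ℕ) (f : ℕ → Bool) : Bool :=
  Nat.rec (motive := fun _ => Bool) (f 0) (fun k _ => f (Nat.succ k)) n

theorem frcB_eq (n : ℕ) (f : ℕ → Bool) : frcB n f = f n := by
  cases n <;> rfl

def chB (T : Tr) (C : List (List Bool)) (e : ℕ) : Bool :=
  match find T (Nat.mod (Nat.div e 65536) 65536) with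
  | none => false
  | some x => permB C (dec x.1 x.2.1) (dig C.length (Nat.div e 4294967296))

def exactB (p : Par) (b n X : ℕ) : Bool :=
  Nat.ble (Nat.mod (Nat.div X p.B) p.B) (Nat.add (Nat.mul b (Nat.pow 2 n)) (Nat.mul p.O (Nat.mod X p.B))) &&
  Nat.ble (Nat.mul p.O (Nat.mod X p.B)) (Nat.add (Nat.mul b (Nat.pow 2 n)) (Nat.mod (Nat.div X p.B) p.B))

def potB (p : Par) (n X : ℕ) : Bool :=
  Nat.ble (Nat.mod (Nat.div X (Nat.pow p.B 2)) p.B) (Nat.mul p.hinf (Nat.pow 2 n)) &&
  Nat.ble (Nat.mod (Nat.div X (Nat.pow p.B 3)) p.B) (Nat.mul p.hinf (Nat.pow 2 n))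

def chk (p : Par) (T : Tr) (n m : ℕ) (d : Dt) : Bool :=
  (Nat.ble n 30 && Nat.blt (Nat.mul (Nat.pow 2 n) p.M) p.B) &&
  match d with
  | .pr => frcB (XX p (dec n m)) (fun X => exactB p (p.hi n) n X && potB p n X)
  | .ex k2 ch =>
    ((Nat.beq n 0 || frcB (XX p (dec n m)) (fun X => exactB p (p.hi n) n X)) &&
      chB T ([true] :: [] :: dec n m) k2) &&
    (ch.all (fun e => chB T (bits n (Nat.mod e 65536) :: dec n m) e) &&
      cov (degL (dec n m)) 0 (Nat.succ n) (ch.map (fun e => bits n (Nat.mod e 65536))))

theorem chB_iso {T : Tr} {C : List (List Bool)} {e : ℕ} (h : chB T C e = true) :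
    ∃ t x, find T t = some x ∧ Iso (GF C) (GF (dec x.1 x.2.1)) := by
  unfold chB at h
  split at h
  · simp at h
  · next x hx => exact ⟨_, x, hx, permB_iso _ _ _ h⟩

section Node
variable {p : Par} (hp : p.OK) {n m : ℕ}

include hp in
theorem exact_of (hl : n ≤ 30) (hb : 2 ^ n * p.M < p.B)
    (hX : exactB p (p.hi n) n (XX p (dec n m)) = true) :
    SS (GF (dec n m)) (ex p.K p.phi) ≤ p.hi n * 2 ^ n ∧
    - SS (GF (dec n m)) (ex p.K p.phi) ≤ p.hi n * 2 ^ n := by
  have hv : Val p.K p.vs (GF (dec n m)) := val_all hp.hc hp.h0 _ _ rfl _ (GF_isG _)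
  have h := XX_digits p hp (dec n m) (dec_wf n m) (by rw [dec_length]; exact hl) hv
    (by rw [dec_length]; exact hb)
  unfold exactB at hX
  rw [Bool.and_eq_true] at hX
  obtain ⟨h1, h2⟩ := hX
  have h1 : XX p (dec n m) / p.B % p.B ≤ p.hi n * 2 ^ n + p.O * (XX p (dec n m) % p.B) :=
    Nat.le_of_ble_eq_true h1
  have h2 : p.O * (XX p (dec n m) % p.B) ≤ p.hi n * 2 ^ n + XX p (dec n m) / p.B % p.B :=
    Nat.le_of_ble_eq_true h2
  generalize XX p (dec n m) / p.B % p.B = q at h h1 h2
  generalize XX p (dec n m) % p.B = c at h h1 h2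
  rw [h.1]
  zify at h1 h2
  constructor <;> linarith

include hp in
theorem pot_of (hl : n ≤ 30) (hb : 2 ^ n * p.M < p.B)
    (hX : potB p n (XX p (dec n m)) = true) : Pot p (GF (dec n m)) := by
  have hv : Val p.K p.vs (GF (dec n m)) := val_all hp.hc hp.h0 _ _ rfl _ (GF_isG _)
  have h := XX_digits p hp (dec n m) (dec_wf n m) (by rw [dec_length]; exact hl) hv
    (by rw [dec_length]; exact hb)
  unfold potB at hX
  rw [Bool.and_eq_true] at hX
  obtain ⟨h1, h2⟩ := hX
  have h1 : XX p (dec n m) / p.B ^ 2 % p.B ≤ p.hinf * 2 ^ n := Nat.le_of_ble_eq_true h1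
  have h2 : XX p (dec n m) / p.B ^ 3 % p.B ≤ p.hinf * 2 ^ n := Nat.le_of_ble_eq_true h2
  unfold Pot
  rw [h.2.1, h.2.2, Fintype.card_fin, dec_length]
  constructor
  · exact_mod_cast h1
  · exact_mod_cast h2

theorem chk_base {T : Tr} {d : Dt} (h : chk p T n m d = true) : n ≤ 30 ∧ 2 ^ n * p.M < p.B := by
  unfold chk at h
  rw [Bool.and_eq_true, Bool.and_eq_true] at h
  exact ⟨Nat.le_of_ble_eq_true h.1.1, (blt_iff _ _).1 h.1.2⟩

include hp in
theorem chk_pr {T : Tr} (h : chk p T n m .pr = true) : Pot p (GF (dec n m)) := by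
  obtain ⟨h1, h2⟩ := chk_base h
  unfold chk at h
  rw [Bool.and_eq_true] at h
  have h3 := h.2
  simp only at h3
  rw [frcB_eq, Bool.and_eq_true] at h3
  exact pot_of hp h1 h2 h3.2

include hp in
theorem chk_exact {T : Tr} {d : Dt} (h : chk p T n m d = true) (hn : n ≠ 0) :
    SS (GF (dec n m)) (ex p.K p.phi) ≤ p.hi n * 2 ^ n ∧
    - SS (GF (dec n m)) (ex p.K p.phi) ≤ p.hi n * 2 ^ n := by
  obtain ⟨h1, h2⟩ := chk_base h
  unfold chk at h
  rw [Bool.and_eq_true] at h
  cases d with
  | pr =>
    have h3 := h.2
    simp only at h3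
    rw [frcB_eq, Bool.and_eq_true] at h3
    exact exact_of hp h1 h2 h3.1
  | ex k2 ch =>
    have h3 := h.2
    simp only at h3
    rw [Bool.and_eq_true, Bool.and_eq_true, Bool.or_eq_true, frcB_eq] at h3
    rcases h3.1.1 with h4 | h4
    · exact absurd (Nat.eq_of_beq_eq_true h4) hn
    · exact exact_of hp h1 h2 h4

end Node

/-- being a node of the tree or having the good property -/
def Claim (p : Par) (T : Tr) {V : Type} [Fintype V] [DecidableEq V] (A : V → V → Bool) : Prop :=
  (∃ t x, find T t = some x ∧ Iso A (GF (dec x.1 x.2.1))) ∨ Good p A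

theorem Claim.iso {p : Par} {T : Tr} {V W : Type} [Fintype V] [DecidableEq V] [Fintype W]
    [DecidableEq W] {A : V → V → Bool} {B : W → W → Bool} (h : Iso A B) (hB : Claim p T B) :
    Claim p T A := by
  rcases hB with ⟨t, x, h1, h2⟩ | h1
  · exact Or.inl ⟨t, x, h1, h.trans h2⟩
  · exact Or.inr (h1.iso h)

theorem addV_congr {V W : Type} {A : V → V → Bool} {B : W → W → Bool}
    (e : V ≃ W) (he : ∀ u v, A u v = B (e u) (e v)) (N : V → Bool) (M : W → Bool)
    (hN : ∀ v, N v = M (e v)) : Iso (addV A N) (addV B M) := by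
  refine ⟨Equiv.optionCongr e, ?_⟩
  intro u v
  cases u <;> cases v <;> simp [addV, he, hN]

theorem rowN_ofFn (n : ℕ) (M : Fin n → Bool) : rowN (List.ofFn M) n = M := by
  funext i
  unfold rowN
  rw [List.getD_eq_getElem?_getD, List.getElem?_ofFn]
  simp

theorem count_ofFn (n : ℕ) (M : Fin n → Bool) :
    (List.ofFn M).count true = ∑ i, if M i = true then 1 else 0 := by
  rw [← count_sum n (List.ofFn M) (by simp)]
  apply sum_congr rfl
  intro i _
  have := congrFun (rowN_ofFn n M) i
  unfold rowN at this
  rw [this]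

theorem claim_step {p : Par} (hp : p.OK) {T : Tr} (hT : allT (chk p T) T = true)
    {V : Type} [Fintype V] [DecidableEq V] {A : V → V → Bool} (hA : IsG A) (hC : Claim p T A)
    (N : V → Bool) (hN : ∃ v, N v = true)
    (hd : ∀ v, (∑ u, if N u = true then 1 else 0) ≤ deg A v + (N v).toNat) :
    Claim p T (addV A N) := by
  rcases hC with ⟨t, ⟨n, m, d⟩, hf, hiso⟩ | hG
  · have hck := allT_find _ T hT t _ hf
    simp only at hck hiso
    cases d with
    | pr => exact Or.inr (((chk_pr hp hck).iso hiso).step hp hA N hN)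
    | ex k2 ch =>
      left
      have hck2 := hck
      unfold chk at hck
      rw [Bool.and_eq_true] at hck
      have h3 := hck.2
      simp only at h3
      rw [Bool.and_eq_true, Bool.and_eq_true, Bool.and_eq_true, List.all_eq_true] at h3
      obtain ⟨_, h4, h5⟩ := h3
      obtain ⟨e, he⟩ := hiso
      set M : Fin (dec n m).length → Bool := fun i => N (e.symm i) with hM
      have hcount : (List.ofFn M).count true = ∑ u, if N u = true then 1 else 0 := by
        rw [count_ofFn]
        symm
        apply Fintype.sum_equiv e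
        intro v
        simp [hM]
      have hmem : List.ofFn M ∈ ch.map (fun e => bits n (Nat.mod e 65536)) := by
        apply cov_spec (degL (dec n m)) 0 (Nat.succ n) _ _ h5
        · simp [degL_length]
        · rw [hcount, zero_add]
          obtain ⟨v, hv⟩ := hN
          have := single_le_sum (f := fun u => if N u = true then 1 else 0)
            (fun v _ => Nat.zero_le _) (mem_univ v)
          simpa [hv] using this
        · have h6 : (List.ofFn M).count true ≤ n :=
            le_trans List.count_le_length (le_of_eq (List.length_ofFn.trans (dec_length n m)))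
          omega
        · intro i hi hi'
          rw [zero_add, hcount]
          have hi2 : i < (dec n m).length := by rw [degL_length] at hi; exact hi
          have h7 := degL_get (dec n m) (dec_wf n m) ⟨i, hi2⟩ hi
          simp only at h7
          rw [h7]
          have h8 := hd (e.symm ⟨i, hi2⟩)
          rw [deg_iso e he] at h8
          simp only [Equiv.apply_symm_apply] at h8
          have h9 : (List.ofFn M)[i] = N (e.symm ⟨i, hi2⟩) := by
            rw [List.getElem_ofFn]
          rw [h9]
          exact h8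
        · intro L hL
          rw [List.mem_map] at hL
          obtain ⟨a, _, ha⟩ := hL
          rw [← ha, bits_length, degL_length, dec_length]
      rw [List.mem_map] at hmem
      obtain ⟨a, ha, hL⟩ := hmem
      obtain ⟨t', x', hf', hiso'⟩ := chB_iso (h4 a ha)
      refine ⟨t', x', hf', ?_⟩
      have i1 : Iso (addV A N) (addV (GF (dec n m)) M) := by
        apply addV_congr e he
        intro v
        simp [hM]
      have i2 : Iso (GF (List.ofFn M :: dec n m)) (addV (GF (dec n m)) M) := by
        have := GF_cons_iso (List.ofFn M) (dec n m)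
        rw [rowN_ofFn] at this
        exact this
      rw [hL] at hiso'
      exact (i1.trans i2.symm).trans hiso'
  · exact Or.inr (hG.1.step hp hA N hN)

/-- adding an isolated edge -/
def addK {V : Type} (A : V → V → Bool) : Option (Option V) → Option (Option V) → Bool :=
  addV (addV A (fun _ => false)) (fun o => o.isNone)

theorem claim_k2 {p : Par} (hp : p.OK) {T : Tr} (hT : allT (chk p T) T = true)
    {V : Type} [Fintype V] [DecidableEq V] {A : V → V → Bool} (hA : IsG A) (hC : Claim p T A) :
    Claim p T (addK A) := by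
  unfold addK
  have hA2 := addV_isG hA (fun _ => false)
  rcases hC with ⟨t, ⟨n, m, d⟩, hf, hiso⟩ | hG
  · have hck := allT_find _ T hT t _ hf
    simp only at hck hiso
    cases d with
    | pr => exact Or.inr ((((chk_pr hp hck).iso hiso).empty).step hp hA2 _ ⟨none, rfl⟩)
    | ex k2 ch =>
      left
      unfold chk at hck
      rw [Bool.and_eq_true] at hck
      have h3 := hck.2
      simp only at h3
      rw [Bool.and_eq_true, Bool.and_eq_true] at h3
      obtain ⟨⟨_, h4⟩, _⟩ := h3
      obtain ⟨t', x', hf', hiso'⟩ := chB_iso h4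
      refine ⟨t', x', hf', ?_⟩
      refine Iso.trans ?_ hiso'
      obtain ⟨e, he⟩ := hiso
      -- first extension
      let e1 : Option V ≃ Fin ((dec n m).length + 1) := (Equiv.optionCongr e).trans (finSuccEquiv _).symm
      have he1 : ∀ u v, addV A (fun _ => false) u v = GF ([] :: dec n m) (e1 u) (e1 v) := by
        intro u v
        rw [GF_cons_eq]
        simp only [e1, Equiv.trans_apply, Equiv.apply_symm_apply]
        cases u <;> cases v <;> simp [addV, he, rowN]
      have i1 : Iso (addV (addV A (fun _ => false)) (fun o => o.isNone))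
          (addV (GF ([] :: dec n m)) (rowN [true] ([] :: dec n m).length)) := by
        refine addV_congr (W := Fin ([] :: dec n m).length) e1 he1 _ _ ?_
        intro v
        cases v with
        | none =>
          have : e1 none = 0 := by simp [e1]
          rw [this]
          rfl
        | some v =>
          have : e1 (some v) = (e v).succ := by simp [e1]
          rw [this]
          unfold rowN
          simp
      exact i1.trans (GF_cons_iso [true] ([] :: dec n m)).symm
  · exact Or.inr ((hG.1.empty).step hp hA2 _ ⟨none, rfl⟩)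

end Pool.Agent.Helper95.GC
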