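import Mathlib

/-!
Vectors of small naturals packed in base `32`.
-/

namespace Pool.Agent.Helper95.GC

open Finset

def pk (n : ℕ) (x : Fin n → ℕ) : ℕ := ∑ i, x i * 32 ^ (i : ℕ)

theorem pk_zero (x : Fin 0 → ℕ) : pk 0 x = 0 := by simp [pk]

theorem pk_succ (n : ℕ) (x : Fin (n + 1) → ℕ) :
    pk (n + 1) x = 32 * pk n (fun i => x i.succ) + x 0 := by
  unfold pk
  rw [Fin.sum_univ_succ, mul_sum, add_comm]
  congr 1
  · apply sum_congr rfl
    intro i _
    rw [Fin.val_succ, pow_succ]
    ring
  · simp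

theorem pk_add (n : ℕ) (x y : Fin n → ℕ) : pk n x + pk n y = pk n (fun i => x i + y i) := by
  unfold pk
  rw [← sum_add_distrib]
  apply sum_congr rfl
  intro i _
  ring

theorem pk_mul (n : ℕ) (k : ℕ) (x : Fin n → ℕ) : k * pk n x = pk n (fun i => k * x i) := by
  unfold pk
  rw [mul_sum]
  apply sum_congr rfl
  intro i _
  ring

theorem pk_congr {n : ℕ} {x y : Fin n → ℕ} (h : ∀ i, x i = y i) : pk n x = pk n y := by
  have : x = y := funext h
  rw [this]

theorem land_block (a b X Y : ℕ) (ha : a < 32) (hb : b < 32) :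
    (32 * X + a) &&& (32 * Y + b) = 32 * (X &&& Y) + (a &&& b) := by
  have hab : a &&& b < 2 ^ 5 := Nat.and_lt_two_pow a (by simpa using hb)
  apply Nat.eq_of_testBit_eq
  intro i
  rw [Nat.testBit_and]
  have e : (32 : ℕ) = 2 ^ 5 := by norm_num
  rw [e, Nat.testBit_two_pow_mul_add X (by simpa using ha), Nat.testBit_two_pow_mul_add Y (by simpa using hb),
    Nat.testBit_two_pow_mul_add (X &&& Y) hab]
  by_cases h : i < 5
  · simp [h, Nat.testBit_and]
  · simp [h, Nat.testBit_and]

theorem pk_land (n : ℕ) (x y : Fin n → ℕ) (hx : ∀ i, x i < 32) (hy : ∀ i, y i < 32) :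
    pk n x &&& pk n y = pk n (fun i => x i &&& y i) := by
  induction n with
  | zero => simp [pk_zero]
  | succ n ih =>
    rw [pk_succ, pk_succ, pk_succ, land_block _ _ _ _ (hx 0) (hy 0),
      ih _ _ (fun i => hx i.succ) (fun i => hy i.succ)]

theorem pk_mod (n : ℕ) (x : Fin n → ℕ) : pk n x % 31 = (∑ i, x i) % 31 := by
  induction n with
  | zero => simp [pk_zero]
  | succ n ih =>
    rw [pk_succ, Fin.sum_univ_succ]
    have := ih (fun i => x i.succ)
    omega

theorem pk_mod_of_lt (n : ℕ) (x : Fin n → ℕ) (h : ∑ i, x i < 31) : pk n x % 31 = ∑ i, x i := by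
  rw [pk_mod, Nat.mod_eq_of_lt h]

/-- packing of a list of booleans -/
def pkl : List Bool → ℕ
  | [] => 0
  | b :: l => 32 * pkl l + b.toNat

theorem pkl_eq (n : ℕ) (l : List Bool) (h : l.length ≤ n) :
    pkl l = pk n (fun i => (l.getD (i : ℕ) false).toNat) := by
  induction l generalizing n with
  | nil => simp [pkl, pk]
  | cons b l ih =>
    cases n with
    | zero => simp at h
    | succ n =>
      rw [pk_succ]
      simp only [List.length_cons, Nat.add_le_add_iff_right] at h
      unfold pkl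
      rw [ih n h]
      simp

end Pool.Agent.Helper95.GC
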