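import Pool.Agent.Helper95.GC.Game
import Pool.Agent.Helper95.GC.Pack

/-!
Graphs given by rows (most recent vertex first) and the packed evaluation of state sums.
-/

namespace Pool.Agent.Helper95.GC

open Finset

/-- adjacency of the graph given by rows: the row of a vertex lists its older neighbours,
the vertex `0` is the most recent one -/
def gr : List (List Bool) → ℕ → ℕ → Bool
  | [], _, _ => false
  | _ :: _, 0, 0 => false
  | r :: _, 0, j + 1 => r.getD j false
  | r :: _, i + 1, 0 => r.getD i false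
  | _ :: rs, i + 1, j + 1 => gr rs i j

def GF (rows : List (List Bool)) : Fin rows.length → Fin rows.length → Bool :=
  fun i j => gr rows i j

theorem gr_symm (rows : List (List Bool)) (i j : ℕ) : gr rows i j = gr rows j i := by
  induction rows generalizing i j with
  | nil => simp [gr]
  | cons r rs ih => cases i <;> cases j <;> simp [gr, ih]

theorem gr_irr (rows : List (List Bool)) (i : ℕ) : gr rows i i = false := by
  induction rows generalizing i with
  | nil => simp [gr]
  | cons r rs ih => cases i <;> simp [gr, ih]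

theorem GF_isG (rows : List (List Bool)) : IsG (GF rows) :=
  ⟨fun _ _ => gr_symm _ _ _, fun _ => gr_irr _ _⟩

/-- neighbour function of a row -/
def rowN (r : List Bool) (n : ℕ) : Fin n → Bool := fun i => r.getD (i : ℕ) false

theorem GF_cons_eq (r : List Bool) (rs : List (List Bool)) (u v : Fin (rs.length + 1)) :
    GF (r :: rs) u v = addV (GF rs) (rowN r rs.length) (finSuccEquiv _ u) (finSuccEquiv _ v) := by
  induction u using Fin.cases with
  | zero =>
    induction v using Fin.cases with
    | zero => simp [GF, gr, addV]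
    | succ v => simp [GF, gr, addV, rowN]
  | succ u =>
    induction v using Fin.cases with
    | zero => simp [GF, gr, addV, rowN]
    | succ v => simp [GF, gr, addV]

theorem GF_cons_iso (r : List Bool) (rs : List (List Bool)) :
    Iso (GF (r :: rs)) (addV (GF rs) (rowN r rs.length)) :=
  ⟨finSuccEquiv _, GF_cons_eq r rs⟩

theorem ext_comp (n : ℕ) (b : Bool) (s : Fin n → Bool) :
    (ext b s) ∘ (finSuccEquiv n) = (Fin.cons b s : Fin (n + 1) → Bool) := by
  funext i
  induction i using Fin.cases with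
  | zero => simp
  | succ i => simp

theorem st_cons (r : List Bool) (rs : List (List Bool)) (b : Bool) (s : Fin rs.length → Bool) :
    st (GF (r :: rs)) (Fin.cons b s : Fin (rs.length + 1) → Bool) =
      st (addV (GF rs) (rowN r rs.length)) (ext b s) := by
  rw [← st_iso (finSuccEquiv _) (GF_cons_eq r rs) (ext b s), ext_comp]

theorem dg_cons_zero (r : List Bool) (rs : List (List Bool)) (b : Bool) (s : Fin rs.length → Bool) :
    dg (GF (r :: rs)) (Fin.cons b s : Fin (rs.length + 1) → Bool) 0 =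
      (PS (rowN r rs.length) s b).card := by
  rw [← ext_comp, dg_iso (finSuccEquiv _) (GF_cons_eq r rs)]
  rw [finSuccEquiv_zero, dg_none]

theorem dg_cons_succ (r : List Bool) (rs : List (List Bool)) (b : Bool) (s : Fin rs.length → Bool)
    (i : Fin rs.length) :
    dg (GF (r :: rs)) (Fin.cons b s : Fin (rs.length + 1) → Bool) i.succ =
      dg (GF rs) s i + (if rowN r rs.length i = true ∧ b ≠ s i then 1 else 0) := by
  rw [← ext_comp, dg_iso (finSuccEquiv _) (GF_cons_eq r rs)]
  rw [finSuccEquiv_succ, dg_some]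

theorem sum_cons {M : Type} [AddCommMonoid M] (n : ℕ) (F : (Fin (n + 1) → Bool) → M) :
    ∑ s : Fin (n + 1) → Bool, F s =
      ∑ s : Fin n → Bool, (F (Fin.cons false s) + F (Fin.cons true s)) := by
  have e1 : ∑ s : Fin (n + 1) → Bool, F s =
      ∑ s : Option (Fin n) → Bool, F (s ∘ (finSuccEquiv n)) := by
    symm
    apply Fintype.sum_equiv (Equiv.arrowCongr (finSuccEquiv n).symm (Equiv.refl Bool))
    intro s
    rfl
  rw [e1, sum_option_fun]
  apply sum_congr rfl
  intro s _
  rw [ext_comp, ext_comp]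

/-- packed evaluation, written with the raw functions which the kernel computes -/
def evp (tab : ℕ → ℕ) (K : ℕ) (rows : List ℕ) : ℕ → ℕ → ℕ → ℕ → ℕ → ℕ :=
  List.rec (motive := fun _ => ℕ → ℕ → ℕ → ℕ → ℕ → ℕ)
    (fun _ _ e c0 c1 => tab (Nat.add e (Nat.add (Nat.mul 8 c0) (Nat.mul 128 c1))))
    (fun R _ ih S D e c0 c1 =>
    Nat.add (Bool.rec (motive := fun _ => ℕ) 0
       (ih (Nat.mul 32 S) (Nat.add (Nat.mul 32 (Nat.add D (Nat.land R S))) (Nat.mod (Nat.land R S) 31))
         (Nat.add e (Nat.mod (Nat.land R S) 31))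
         (Nat.add c0 (Nat.div (Nat.mul (Nat.mod (Nat.land R S) 31) (Nat.sub (Nat.mod (Nat.land R S) 31) 1)) 2))
         (Nat.add c1 (Nat.mod (Nat.land (Nat.mul 31 (Nat.land R S)) D) 31)))
       (Nat.ble (Nat.add e (Nat.mod (Nat.land R S) 31)) K))
    (Bool.rec (motive := fun _ => ℕ) 0
       (ih (Nat.succ (Nat.mul 32 S)) (Nat.add (Nat.mul 32 (Nat.add D (Nat.sub R (Nat.land R S)))) (Nat.mod (Nat.sub R (Nat.land R S)) 31))
         (Nat.add e (Nat.mod (Nat.sub R (Nat.land R S)) 31))
         (Nat.add c0 (Nat.mod (Nat.land (Nat.mul 31 (Nat.sub R (Nat.land R S))) D) 31))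
         (Nat.add c1 (Nat.div (Nat.mul (Nat.mod (Nat.sub R (Nat.land R S)) 31) (Nat.sub (Nat.mod (Nat.sub R (Nat.land R S)) 31) 1)) 2)))
       (Nat.ble (Nat.add e (Nat.mod (Nat.sub R (Nat.land R S)) 31)) K))) rows

def code (σ : ℕ × ℕ × ℕ) : ℕ := σ.1 + (8 * σ.2.1 + 128 * σ.2.2)

theorem evp_nil (tab : ℕ → ℕ) (K S D e c0 c1 : ℕ) :
    evp tab K [] S D e c0 c1 = tab (code (e, c0, c1)) := rfl

theorem rec_ble (a b x : ℕ) :
    (Bool.rec (motive := fun _ => ℕ) 0 x (Nat.ble a b) : ℕ) = if a ≤ b then x else 0 := by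
  by_cases h : a ≤ b
  · rw [if_pos h, Nat.ble_eq_true_of_le h]
  · rw [if_neg h]
    have : Nat.ble a b = false := by
      rw [Bool.eq_false_iff]
      intro h2
      exact h (Nat.le_of_ble_eq_true h2)
    rw [this]

theorem evp_cons (tab : ℕ → ℕ) (K R : ℕ) (rows : List ℕ) (S D e c0 c1 : ℕ) :
    evp tab K (R :: rows) S D e c0 c1 =
      (if e + (R &&& S) % 31 ≤ K then
        evp tab K rows (32 * S) (32 * (D + (R &&& S)) + (R &&& S) % 31) (e + (R &&& S) % 31)
          (c0 + c2 ((R &&& S) % 31)) (c1 + ((31 * (R &&& S)) &&& D) % 31) else 0) +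
      (if e + (R - (R &&& S)) % 31 ≤ K then
        evp tab K rows (32 * S + 1) (32 * (D + (R - (R &&& S))) + (R - (R &&& S)) % 31)
          (e + (R - (R &&& S)) % 31)
          (c0 + ((31 * (R - (R &&& S))) &&& D) % 31) (c1 + c2 ((R - (R &&& S)) % 31)) else 0) := by
  rw [← rec_ble, ← rec_ble]
  rfl

end Pool.Agent.Helper95.GC
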