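import Pool.Agent.Helper95.GC.Ev

/-!
Parameters of a certificate, table check, digits of the packed sum.
-/

namespace Pool.Agent.Helper95.GC

open Finset

structure Par where
  K : ℕ
  vs : List (ℕ × ℕ × ℕ)
  phi : ℕ × ℕ × ℕ → ℤ
  pp : ℕ × ℕ × ℕ → ℤ
  pm : ℕ × ℕ × ℕ → ℤ
  tab : ℕ → ℕ
  B : ℕ
  O : ℕ
  M : ℕ
  AA : ℕ
  D : ℕ
  S : ℕ

namespace Par

/-- bound for graphs with `n` vertices -/
def hi (p : Par) (n : ℕ) : ℕ := p.AA - p.D * min n p.S

def hinf (p : Par) : ℕ := p.AA - p.D * p.S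

theorem hinf_le (p : Par) (n : ℕ) : p.hinf ≤ p.hi n := by
  unfold hinf hi
  have : p.D * min n p.S ≤ p.D * p.S := Nat.mul_le_mul_left _ (min_le_right _ _)
  omega

def tabB (p : Par) (σ : ℕ × ℕ × ℕ) : Bool :=
  decide (0 ≤ p.phi σ + p.O) && decide (p.phi σ + p.O < p.M) &&
  decide (0 ≤ p.pp σ) && decide (p.pp σ < p.M) &&
  decide (0 ≤ p.pm σ) && decide (p.pm σ < p.M) &&
  decide (p.tab (code σ) = 1 + p.B * (p.phi σ + p.O).toNat + p.B ^ 2 * (p.pp σ).toNat +
    p.B ^ 3 * (p.pm σ).toNat)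

def okB (p : Par) : Bool :=
  decide (p.K ≤ 30) && closeB p.K p.vs && p.vs.contains (0, 0, 0) &&
  gameB p.K p.vs p.phi p.pp && gameB p.K p.vs p.pp p.pp &&
  gameB p.K p.vs (fun σ => - p.phi σ) p.pm && gameB p.K p.vs p.pm p.pm &&
  p.vs.all p.tabB && decide (1 ≤ p.M) && decide (1 ≤ p.B)

structure OK (p : Par) : Prop where
  hK : p.K ≤ 30
  hc : closeB p.K p.vs = true
  h0 : p.vs.contains (0, 0, 0) = true
  g1 : gameB p.K p.vs p.phi p.pp = true
  g2 : gameB p.K p.vs p.pp p.pp = true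
  g3 : gameB p.K p.vs (fun σ => - p.phi σ) p.pm = true
  g4 : gameB p.K p.vs p.pm p.pm = true
  ht : ∀ σ ∈ p.vs, p.tabB σ = true
  hM : 1 ≤ p.M
  hB : 1 ≤ p.B

theorem ok_of (p : Par) (h : p.okB = true) : p.OK := by
  unfold okB at h
  simp only [Bool.and_eq_true, decide_eq_true_eq] at h
  obtain ⟨⟨⟨⟨⟨⟨⟨⟨⟨a, b⟩, c⟩, d⟩, e⟩, f⟩, g⟩, i⟩, j⟩, k⟩ := h
  exact ⟨a, b, c, d, e, f, g, fun σ hσ => (List.all_eq_true.1 i) σ hσ, j, k⟩

end Par

theorem digits4 (B a b c d : ℕ) (ha : a < B) (hb : b < B) (hc : c < B) (hd : d < B) :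
    (a + B * b + B ^ 2 * c + B ^ 3 * d) % B = a ∧
    (a + B * b + B ^ 2 * c + B ^ 3 * d) / B % B = b ∧
    (a + B * b + B ^ 2 * c + B ^ 3 * d) / B ^ 2 % B = c ∧
    (a + B * b + B ^ 2 * c + B ^ 3 * d) / B ^ 3 % B = d := by
  have hB : 0 < B := by omega
  have e1 : a + B * b + B ^ 2 * c + B ^ 3 * d = a + B * (b + B * (c + B * d)) := by ring
  have q1 : (a + B * (b + B * (c + B * d))) / B = b + B * (c + B * d) := by
    rw [Nat.add_mul_div_left _ _ hB, Nat.div_eq_of_lt ha, zero_add]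
  have q2 : (b + B * (c + B * d)) / B = c + B * d := by
    rw [Nat.add_mul_div_left _ _ hB, Nat.div_eq_of_lt hb, zero_add]
  have q3 : (c + B * d) / B = d := by
    rw [Nat.add_mul_div_left _ _ hB, Nat.div_eq_of_lt hc, zero_add]
  rw [e1]
  refine ⟨?_, ?_, ?_, ?_⟩
  · rw [Nat.add_mul_mod_self_left, Nat.mod_eq_of_lt ha]
  · rw [q1, Nat.add_mul_mod_self_left, Nat.mod_eq_of_lt hb]
  · rw [pow_two, ← Nat.div_div_eq_div_mul, q1, q2, Nat.add_mul_mod_self_left, Nat.mod_eq_of_lt hc]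
  · rw [pow_succ, pow_two, ← Nat.div_div_eq_div_mul, ← Nat.div_div_eq_div_mul, q1, q2, q3,
      Nat.mod_eq_of_lt hd]

/-- the packed sum of a graph -/
def XX (p : Par) (rows : List (List Bool)) : ℕ := evp p.tab p.K (rows.reverse.map pkl) 0 0 0 0 0

theorem XX_digits (p : Par) (hp : p.OK) (rows : List (List Bool)) (hw : WFr rows)
    (hl : rows.length ≤ 30) (hv : Val p.K p.vs (GF rows)) (hb : 2 ^ rows.length * p.M < p.B) :
    SS (GF rows) (ex p.K p.phi) = ((XX p rows / p.B % p.B : ℕ) : ℤ) - p.O * ((XX p rows % p.B : ℕ) : ℤ) ∧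
    SS (GF rows) (ex p.K p.pp) = ((XX p rows / p.B ^ 2 % p.B : ℕ) : ℤ) ∧
    SS (GF rows) (ex p.K p.pm) = ((XX p rows / p.B ^ 3 % p.B : ℕ) : ℤ) := by
  have hsum : ∀ f : (ℕ × ℕ × ℕ) → ℕ, (∀ σ ∈ p.vs, f σ ≤ p.M) →
      (∑ s : Fin rows.length → Bool, if (st (GF rows) s).1 ≤ p.K then f (st (GF rows) s) else 0) < p.B := by
    intro f hf
    refine lt_of_le_of_lt ?_ hb
    have : ∑ _s : Fin rows.length → Bool, p.M = 2 ^ rows.length * p.M := by simp
    rw [← this]
    apply sum_le_sum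
    intro s _
    split_ifs with h
    · rcases hv s with h2 | h2
      · exact hf _ h2
      · omega
    · omega
  have htab : ∀ σ ∈ p.vs, 0 ≤ p.phi σ + p.O ∧ p.phi σ + p.O < p.M ∧ 0 ≤ p.pp σ ∧ p.pp σ < p.M ∧
      0 ≤ p.pm σ ∧ p.pm σ < p.M ∧
      p.tab (code σ) = 1 + p.B * (p.phi σ + p.O).toNat + p.B ^ 2 * (p.pp σ).toNat +
        p.B ^ 3 * (p.pm σ).toNat := by
    intro σ hσ
    have := hp.ht σ hσ
    unfold Par.tabB at this
    simp only [Bool.and_eq_true, decide_eq_true_eq] at this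
    obtain ⟨⟨⟨⟨⟨⟨a, b⟩, c⟩, d⟩, e⟩, f⟩, g⟩ := this
    exact ⟨a, b, c, d, e, f, g⟩
  set T : ((ℕ × ℕ × ℕ) → ℕ) → ℕ := fun f =>
    ∑ s : Fin rows.length → Bool, if (st (GF rows) s).1 ≤ p.K then f (st (GF rows) s) else 0 with hT
  have hX : XX p rows = T (fun _ => 1) + p.B * T (fun σ => (p.phi σ + p.O).toNat) +
      p.B ^ 2 * T (fun σ => (p.pp σ).toNat) + p.B ^ 3 * T (fun σ => (p.pm σ).toNat) := by
    unfold XX
    rw [evp_main p.tab p.K hp.hK rows hw hl, hT]
    simp only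
    rw [mul_sum, mul_sum, mul_sum, ← sum_add_distrib, ← sum_add_distrib, ← sum_add_distrib]
    apply sum_congr rfl
    intro s _
    split_ifs with h
    · rcases hv s with h2 | h2
      · exact (htab _ h2).2.2.2.2.2.2
      · omega
    · simp
  have b1 : T (fun _ => 1) < p.B := hsum _ (fun σ hσ => hp.hM)
  have b2 : T (fun σ => (p.phi σ + p.O).toNat) < p.B :=
    hsum (fun σ => (p.phi σ + p.O).toNat) (fun σ hσ => by
      have := htab σ hσ; omega)
  have b3 : T (fun σ => (p.pp σ).toNat) < p.B := hsum (fun σ => (p.pp σ).toNat) (fun σ hσ => by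
    have := htab σ hσ; omega)
  have b4 : T (fun σ => (p.pm σ).toNat) < p.B := hsum (fun σ => (p.pm σ).toNat) (fun σ hσ => by
    have := htab σ hσ; omega)
  obtain ⟨d1, d2, d3, d4⟩ := digits4 p.B _ _ _ _ b1 b2 b3 b4
  rw [hX, d1, d2, d3, d4, hT]
  refine ⟨?_, ?_, ?_⟩
  · simp only
    rw [Nat.cast_sum, Nat.cast_sum, mul_sum, ← sum_sub_distrib]
    unfold SS
    apply sum_congr rfl
    intro s _
    unfold ex
    split_ifs with h
    · rcases hv s with h2 | h2
      · have := htab _ h2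
        rw [Int.toNat_of_nonneg this.1]
        push_cast; ring
      · omega
    · simp
  · simp only
    rw [Nat.cast_sum]
    unfold SS
    apply sum_congr rfl
    intro s _
    unfold ex
    split_ifs with h
    · rcases hv s with h2 | h2
      · have := htab _ h2
        rw [Int.toNat_of_nonneg this.2.2.1]
      · omega
    · simp
  · simp only
    rw [Nat.cast_sum]
    unfold SS
    apply sum_congr rfl
    intro s _
    unfold ex
    split_ifs with h
    · rcases hv s with h2 | h2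
      · have := htab _ h2
        rw [Int.toNat_of_nonneg this.2.2.2.2.1]
      · omega
    · simp

/-- the potential of the graph is small -/
def Pot (p : Par) {V : Type} [Fintype V] [DecidableEq V] (A : V → V → Bool) : Prop :=
  SS A (ex p.K p.pp) ≤ p.hinf * 2 ^ Fintype.card V ∧
  SS A (ex p.K p.pm) ≤ p.hinf * 2 ^ Fintype.card V

/-- the property inherited by all extensions -/
def Good (p : Par) {V : Type} [Fintype V] [DecidableEq V] (A : V → V → Bool) : Prop :=
  Pot p A ∧ SS A (ex p.K p.phi) ≤ p.hinf * 2 ^ Fintype.card V ∧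
  - SS A (ex p.K p.phi) ≤ p.hinf * 2 ^ Fintype.card V

theorem Pot.iso {p : Par} {V W : Type} [Fintype V] [DecidableEq V] [Fintype W] [DecidableEq W]
    {A : V → V → Bool} {B : W → W → Bool} (h : Iso A B) (hB : Pot p B) : Pot p A := by
  unfold Pot at *
  rw [SS_iso h, SS_iso h, h.card]
  exact hB

theorem Good.iso {p : Par} {V W : Type} [Fintype V] [DecidableEq V] [Fintype W] [DecidableEq W]
    {A : V → V → Bool} {B : W → W → Bool} (h : Iso A B) (hB : Good p B) : Good p A := by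
  refine ⟨Pot.iso h hB.1, ?_⟩
  rw [SS_iso h, h.card]
  exact hB.2

theorem Pot.step {p : Par} (hp : p.OK) {V : Type} [Fintype V] [DecidableEq V]
    {A : V → V → Bool} (hA : IsG A) (h : Pot p A) (N : V → Bool) (hN : ∃ v, N v = true) :
    Good p (addV A N) := by
  have hv : Val p.K p.vs A := val_all hp.hc hp.h0 _ V rfl A hA
  obtain ⟨h1, h2⟩ := h
  have s1 := game_step hp.g1 hA hv N hN
  have s2 := game_step hp.g2 hA hv N hN
  have s3 := game_step hp.g3 hA hv N hN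
  have s4 := game_step hp.g4 hA hv N hN
  have e : SS (addV A N) (ex p.K (fun σ => - p.phi σ)) = - SS (addV A N) (ex p.K p.phi) := by
    unfold SS
    rw [← sum_neg_distrib]
    apply sum_congr rfl
    intro s _
    unfold ex
    split_ifs <;> simp
  rw [e] at s3
  unfold Good Pot
  rw [Fintype.card_option, pow_succ]
  refine ⟨⟨?_, ?_⟩, ?_, ?_⟩ <;> linarith

theorem Pot.empty {p : Par} {V : Type} [Fintype V] [DecidableEq V]
    {A : V → V → Bool} (h : Pot p A) : Pot p (addV A (fun _ => false)) := by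
  obtain ⟨h1, h2⟩ := h
  unfold Pot
  rw [SS_addV_empty, SS_addV_empty, Fintype.card_option, pow_succ]
  refine ⟨?_, ?_⟩ <;> linarith

end Pool.Agent.Helper95.GC
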