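import Pool.Agent.Helper95.GC.Tab

/-!
The tree of graphs: isomorphism check, covering of the admissible neighbourhoods, main induction.
-/

namespace Pool.Agent.Helper95.GC

open Finset

/-! ### decoding -/

def bits : ℕ → ℕ → List Bool
  | 0, _ => []
  | n + 1, m => Nat.beq (Nat.mod m 2) 1 :: bits n (Nat.div m 2)

def dig : ℕ → ℕ → List ℕ
  | 0, _ => []
  | n + 1, m => Nat.mod m 16 :: dig n (Nat.div m 16)

def dec : ℕ → ℕ → List (List Bool)
  | 0, _ => []
  | n + 1, m => bits n (Nat.mod m 65536) :: dec n (Nat.div m 65536)

theorem bits_length (n m : ℕ) : (bits n m).length = n := by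
  induction n generalizing m with
  | zero => rfl
  | succ n ih => simp [bits, ih]

theorem dec_length (n m : ℕ) : (dec n m).length = n := by
  induction n generalizing m with
  | zero => rfl
  | succ n ih => simp [dec, ih]

theorem dec_wf (n m : ℕ) : WFr (dec n m) := by
  induction n generalizing m with
  | zero => trivial
  | succ n ih => exact ⟨by rw [bits_length, dec_length], ih _⟩

/-! ### isomorphism check -/

def rowB (T : List (List Bool)) (p : ℕ) : List ℕ → List Bool → Bool
  | [], _ => true
  | q :: qs, c => (gr T p q == c.headD false) && rowB T p qs c.tail

def isoB (T : List (List Bool)) : List (List Bool) → List ℕ → Bool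
  | [], [] => true
  | c :: C, p :: π => rowB T p π c && isoB T C π
  | [], _ :: _ => false
  | _ :: _, [] => false

def nodupB : List ℕ → Bool
  | [] => true
  | a :: l => l.all (fun b => !(Nat.beq a b)) && nodupB l

def permB (C T : List (List Bool)) (π : List ℕ) : Bool :=
  Nat.beq C.length T.length && π.all (fun a => Nat.blt a T.length) && nodupB π && isoB T C π

theorem rowB_spec (T : List (List Bool)) (p : ℕ) : ∀ (qs : List ℕ) (c : List Bool),
    rowB T p qs c = true → ∀ j (hj : j < qs.length), gr T p qs[j] = c.getD j false := by
  intro qs
  induction qs with
  | nil => intro c _ j hj; simp at hj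
  | cons q qs ih =>
    intro c h j hj
    unfold rowB at h
    rw [Bool.and_eq_true, beq_iff_eq] at h
    cases j with
    | zero =>
      simp only [List.getElem_cons_zero, h.1]
      cases c <;> rfl
    | succ j =>
      have := ih c.tail h.2 j (by simpa using hj)
      simp only [List.getElem_cons_succ, this]
      cases c <;> simp

theorem isoB_spec (T : List (List Bool)) : ∀ (C : List (List Bool)) (π : List ℕ),
    isoB T C π = true → π.length = C.length ∧
      ∀ i j (hi : i < π.length) (hj : j < π.length), i < j → gr C i j = gr T π[i] π[j] := by
  intro C
  induction C with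
  | nil =>
    intro π h
    cases π with
    | nil => exact ⟨rfl, fun i j hi => by simp at hi⟩
    | cons p π => simp [isoB] at h
  | cons c C ih =>
    intro π h
    cases π with
    | nil => simp [isoB] at h
    | cons p π =>
      unfold isoB at h
      rw [Bool.and_eq_true] at h
      obtain ⟨h1, h2⟩ := h
      obtain ⟨h3, h4⟩ := ih π h2
      refine ⟨by simp [h3], ?_⟩
      intro i j hi hj hij
      cases j with
      | zero => omega
      | succ j =>
        cases i with
        | zero =>
          have := rowB_spec T p π c h1 j (by simpa using hj)
          simp only [gr, List.getElem_cons_zero, List.getElem_cons_succ, this]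
        | succ i =>
          simp only [gr, List.getElem_cons_succ]
          exact h4 i j (by simpa using hi) (by simpa using hj) (by omega)

theorem nodupB_spec : ∀ (l : List ℕ), nodupB l = true → l.Nodup := by
  intro l
  induction l with
  | nil => intro _; exact List.nodup_nil
  | cons a l ih =>
    intro h
    unfold nodupB at h
    rw [Bool.and_eq_true, List.all_eq_true] at h
    rw [List.nodup_cons]
    refine ⟨?_, ih h.2⟩
    intro ha
    have := h.1 a ha
    simp at this

theorem blt_iff (a b : ℕ) : Nat.blt a b = true ↔ a < b := by
  unfold Nat.blt
  rw [Nat.ble_eq, Nat.succ_le_iff]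

theorem permB_iso (C T : List (List Bool)) (π : List ℕ) (h : permB C T π = true) :
    Iso (GF C) (GF T) := by
  unfold permB at h
  rw [Bool.and_eq_true, Bool.and_eq_true, Bool.and_eq_true, List.all_eq_true] at h
  obtain ⟨⟨⟨h1, h2⟩, h3⟩, h4⟩ := h
  have hlen : C.length = T.length := Nat.eq_of_beq_eq_true h1
  obtain ⟨h5, h6⟩ := isoB_spec T C π h4
  have hnd := nodupB_spec π h3
  have hlt : ∀ i (hi : i < π.length), π[i] < T.length := by
    intro i hi
    exact (blt_iff _ _).1 (h2 _ (List.getElem_mem hi))
  let f : Fin C.length → Fin T.length := fun i =>
    ⟨π[(i : ℕ)]'(by rw [h5]; exact i.2), hlt _ _⟩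
  have hinj : Function.Injective f := by
    intro i j hij
    have h7 := Fin.val_eq_of_eq hij
    simp only [f] at h7
    have := (List.Nodup.getElem_inj_iff hnd).1 h7
    exact Fin.ext this
  have hbij : Function.Bijective f := by
    rw [Fintype.bijective_iff_injective_and_card]
    exact ⟨hinj, by simp [hlen]⟩
  refine ⟨Equiv.ofBijective f hbij, ?_⟩
  intro u v
  rw [Equiv.ofBijective_apply, Equiv.ofBijective_apply]
  unfold GF
  have hu : (u : ℕ) < π.length := by rw [h5]; exact u.2
  have hv : (v : ℕ) < π.length := by rw [h5]; exact v.2
  rcases lt_trichotomy (u : ℕ) (v : ℕ) with h | h | h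
  · exact h6 _ _ hu hv h
  · have : u = v := Fin.ext h
    rw [this, gr_irr, gr_irr]
  · rw [gr_symm C, gr_symm T]
    exact h6 _ _ hv hu h

/-! ### covering of the admissible neighbourhoods -/

def tails (b : Bool) (cands : List (List Bool)) : List (List Bool) :=
  cands.filterMap (fun N => match N with
    | [] => none
    | x :: t => bif x == b then some t else none)

theorem mem_tails {b : Bool} {cands : List (List Bool)} {t : List Bool} (h : t ∈ tails b cands) :
    b :: t ∈ cands := by
  unfold tails at h
  rw [List.mem_filterMap] at h
  obtain ⟨N, hN, h2⟩ := h
  cases N with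
  | nil => simp at h2
  | cons x t' =>
    cases hx : x == b
    · simp [hx] at h2
    · simp only [hx, cond_true, Option.some.injEq] at h2
      have : x = b := by simpa using hx
      rw [← h2, ← this]; exact hN

def cov : List ℕ → ℕ → ℕ → List (List Bool) → Bool
  | [], c, q, cands => Nat.beq c 0 || Nat.blt q c || !cands.isEmpty
  | d :: ds, c, q, cands => Nat.blt q c ||
      (cov ds c (bif Nat.ble q d then q else d) (tails false cands) &&
       cov ds (c + 1) (bif Nat.ble q (d + 1) then q else d + 1) (tails true cands))

theorem bmin (a b : ℕ) : (bif Nat.ble a b then a else b) = min a b := by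
  by_cases h : a ≤ b
  · rw [Nat.ble_eq_true_of_le h, min_eq_left h]; rfl
  · have : Nat.ble a b = false := by
      rw [Bool.eq_false_iff]
      intro h2
      exact h (Nat.le_of_ble_eq_true h2)
    rw [this, min_eq_right (by omega)]; rfl

theorem cov_spec : ∀ (ds : List ℕ) (c q : ℕ) (cands : List (List Bool)),
    (∀ N ∈ cands, N.length = ds.length) → cov ds c q cands = true →
    ∀ N : List Bool, N.length = ds.length → 1 ≤ c + N.count true → c + N.count true ≤ q →
    (∀ i (hi : i < ds.length) (hi' : i < N.length), c + N.count true ≤ ds[i] + (N[i]).toNat) →
    N ∈ cands := by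
  intro ds
  induction ds with
  | nil =>
    intro c q cands hl h N hN h1 h2 _
    have : N = [] := List.length_eq_zero_iff.1 hN
    subst this
    simp at h1 h2
    unfold cov at h
    rw [Bool.or_eq_true, Bool.or_eq_true] at h
    rcases h with (h | h) | h
    · have := Nat.eq_of_beq_eq_true h; omega
    · have := (blt_iff _ _).1 h; omega
    · cases cands with
      | nil => simp at h
      | cons x l =>
        have := List.length_eq_zero_iff.1 (hl x (by simp))
        rw [this]; simp
  | cons d ds ih =>
    intro c q cands hl h N hN h1 h2 h3
    cases N with
    | nil => simp at hN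
    | cons b N =>
      unfold cov at h
      rw [Bool.or_eq_true, Bool.and_eq_true, bmin, bmin] at h
      rcases h with h | ⟨ha, hb⟩
      · have := (blt_iff _ _).1 h
        have h4 : c ≤ c + (b :: N).count true := by omega
        omega
      · apply mem_tails
        have hd := h3 0 (by simp) (by simp)
        simp only [List.getElem_cons_zero] at hd
        cases b
        · have hc : (false :: N).count true = N.count true := by simp
          rw [hc] at h1 h2 hd h3
          simp only [Bool.toNat_false, add_zero] at hd
          apply ih c (min q d) _ _ ha N (by simpa using hN) h1 (by omega)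
          · intro i hi hi'
            have := h3 (i + 1) (by simpa using hi) (by simpa using hi')
            simpa using this
          · intro M hM
            have := hl _ (mem_tails hM)
            simpa using this
        · have hc : (true :: N).count true = N.count true + 1 := by simp
          rw [hc] at h1 h2 hd h3
          simp only [Bool.toNat_true] at hd
          apply ih (c + 1) (min q (d + 1)) _ _ hb N (by simpa using hN) (by omega) (by omega)
          · intro i hi hi'
            have := h3 (i + 1) (by simpa using hi) (by simpa using hi')
            simp only [List.getElem_cons_succ] at this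
            omega
          · intro M hM
            have := hl _ (mem_tails hM)
            simpa using this

/-! ### degrees of a graph given by rows -/

def zipAdd : List Bool → List ℕ → List ℕ
  | [], ds => ds
  | _ :: _, [] => []
  | b :: r, d :: ds => (bif b then Nat.succ d else d) :: zipAdd r ds

def cntT : List Bool → ℕ
  | [] => 0
  | b :: r => bif b then Nat.succ (cntT r) else cntT r

def degL : List (List Bool) → List ℕ
  | [] => []
  | r :: rs => cntT r :: zipAdd r (degL rs)

theorem cntT_eq (r : List Bool) : cntT r = r.count true := by
  induction r with
  | nil => rfl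
  | cons b r ih => cases b <;> simp [cntT, ih]

theorem zipAdd_length (r : List Bool) (ds : List ℕ) : (zipAdd r ds).length = ds.length := by
  induction r generalizing ds with
  | nil => rfl
  | cons b r ih => cases ds <;> simp [zipAdd, ih]

theorem zipAdd_get (r : List Bool) (ds : List ℕ) (i : ℕ) (hi : i < ds.length)
    (hi' : i < (zipAdd r ds).length) : (zipAdd r ds)[i] = ds[i] + (r.getD i false).toNat := by
  induction r generalizing ds i with
  | nil => simp [zipAdd]
  | cons b r ih =>
    cases ds with
    | nil => simp at hi
    | cons d ds =>
      cases i with
      | zero => cases b <;> simp [zipAdd]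
      | succ i =>
        simp only [zipAdd, List.getElem_cons_succ, List.getD_cons_succ]
        exact ih ds i (by simpa using hi) _

theorem degL_length (rows : List (List Bool)) : (degL rows).length = rows.length := by
  induction rows with
  | nil => rfl
  | cons r rs ih => simp [degL, zipAdd_length, ih]

theorem deg_addV_none {V : Type} [Fintype V] (A : V → V → Bool) (N : V → Bool) :
    deg (addV A N) none = ∑ u, if N u = true then 1 else 0 := by
  unfold deg
  rw [Fintype.sum_option]
  have h0 : (if addV A N none none = true then 1 else 0) = 0 := rfl
  rw [h0, zero_add]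
  rfl

theorem deg_addV_some {V : Type} [Fintype V] (A : V → V → Bool) (N : V → Bool) (v : V) :
    deg (addV A N) (some v) = deg A v + (N v).toNat := by
  unfold deg
  rw [Fintype.sum_option, add_comm]
  have h0 : ∀ b : Bool, (if b = true then 1 else 0) = b.toNat := by intro b; cases b <;> rfl
  congr 1
  exact h0 (N v)

theorem count_sum (n : ℕ) (r : List Bool) (h : r.length ≤ n) :
    (∑ i : Fin n, if r.getD (i : ℕ) false = true then 1 else 0) = r.count true := by
  induction r generalizing n with
  | nil => simp
  | cons b r ih =>
    cases n with
    | zero => simp at h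
    | succ n =>
      rw [Fin.sum_univ_succ]
      simp only [List.length_cons, Nat.add_le_add_iff_right] at h
      have := ih n h
      simp only [Fin.val_zero, List.getD_cons_zero, Fin.val_succ, List.getD_cons_succ, this]
      cases b <;> simp [add_comm]

theorem degL_get (rows : List (List Bool)) (hw : WFr rows) (i : Fin rows.length)
    (hi : (i : ℕ) < (degL rows).length) : (degL rows)[(i : ℕ)] = deg (GF rows) i := by
  induction rows with
  | nil => exact i.elim0
  | cons r rs ih =>
    obtain ⟨hr, hw⟩ := hw
    have key : ∀ j : Fin (rs.length + 1), ∀ (hj : (j : ℕ) < (degL (r :: rs)).length),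
        (degL (r :: rs))[(j : ℕ)] = deg (GF (r :: rs)) j := by
      intro j hj
      rw [deg_iso (finSuccEquiv _) (GF_cons_eq r rs)]
      induction j using Fin.cases with
      | zero =>
        rw [finSuccEquiv_zero, deg_addV_none]
        simp only [degL, Fin.val_zero, List.getElem_cons_zero]
        rw [cntT_eq, ← count_sum rs.length r hr]
        rfl
      | succ j =>
        rw [finSuccEquiv_succ, deg_addV_some]
        simp only [degL, Fin.val_succ, List.getElem_cons_succ]
        rw [zipAdd_get r (degL rs) j (by rw [degL_length]; exact j.2)]
        rw [ih hw j (by rw [degL_length]; exact j.2)]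
        rfl
    exact key i hi

end Pool.Agent.Helper95.GC
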